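import Pool.Agent.helper29.SS.Stmt

/-!
# Algebraic equivalence of codimension-2 cycles: computations in a graded `F₂`-algebra

Two facts on a graded algebra with elements `x`, `y` of degree 1 and `m` of degree 2 whose
monomials are independent in low degrees: the square of a nonzero element of degree 3 is not
zero; and `x y²` is not of the form `φ c - c`, where `φ m = m + x²`.
-/

namespace Pool.Agent.helper29.SS

open Theory

section Graded

variable {R : Type*} [CommRing R] [Algebra (ZMod 2) R] {G : ℕ → Submodule (ZMod 2) R}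

/-- The elements of degree 3 are combinations of the six monomials. -/
theorem degree_three {x y m b : R}
    (hspan : Submodule.span (ZMod 2) (Set.range (Theory.monomials x y m 3)) = G 3) (hb : b ∈ G 3) :
    ∃ a₁ a₂ a₃ a₄ a₅ a₆ : ZMod 2, b = a₁ • x ^ 3 + a₂ • (x ^ 2 * y) + a₃ • (x * y ^ 2) +
      a₄ • y ^ 3 + a₅ • (x * m) + a₆ • (y * m) := by
  rw [← hspan] at hb
  have hle : Submodule.span (ZMod 2) (Set.range (Theory.monomials x y m 3)) ≤
      Submodule.span (ZMod 2) {x ^ 3, x ^ 2 * y, x * y ^ 2, y ^ 3, x * m, y * m} := by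
    rw [Submodule.span_le]
    rintro _ ⟨⟨⟨i, j, k⟩, h⟩, rfl⟩
    have hcases : (i = 3 ∧ j = 0 ∧ k = 0) ∨ (i = 2 ∧ j = 1 ∧ k = 0) ∨ (i = 1 ∧ j = 2 ∧ k = 0) ∨
        (i = 0 ∧ j = 3 ∧ k = 0) ∨ (i = 1 ∧ j = 0 ∧ k = 1) ∨ (i = 0 ∧ j = 1 ∧ k = 1) := by
      simp only at h
      omega
    apply Submodule.subset_span
    rcases hcases with ⟨rfl, rfl, rfl⟩ | ⟨rfl, rfl, rfl⟩ | ⟨rfl, rfl, rfl⟩ | ⟨rfl, rfl, rfl⟩ |
      ⟨rfl, rfl, rfl⟩ | ⟨rfl, rfl, rfl⟩ <;> simp [Theory.monomials]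
  have h := hle hb
  simp only [Submodule.mem_span_insert, Submodule.mem_span_singleton] at h
  obtain ⟨a₁, z₁, ⟨a₂, z₂, ⟨a₃, z₃, ⟨a₄, z₄, ⟨a₅, z₅, ⟨a₆, rfl⟩, rfl⟩, rfl⟩, rfl⟩, rfl⟩, rfl⟩ := h
  exact ⟨a₁, a₂, a₃, a₄, a₅, a₆, by abel⟩

end Graded

/-- A class of degree 3 with square zero vanishes, if the classes of degree 3 are combinations
of the monomials and the monomials of degree 6 are independent. -/
theorem eq_zero_of_sq_eq_zero {R : Type*} [CommRing R] [Algebra (ZMod 2) R]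
    (G : ℕ → Submodule (ZMod 2) R) (x y m : R)
    (hspan : Submodule.span (ZMod 2) (Set.range (Theory.monomials x y m 3)) = G 3)
    (hli6 : LinearIndependent (ZMod 2) (Theory.monomials x y m 6))
    (b : R) (hb : b ∈ G 3) (hsq : b ^ 2 = 0) : b = 0 := by
  have h2 : (2 : R) = 0 := by
    have h := congrArg (algebraMap (ZMod 2) R) (show (2 : ZMod 2) = 0 from rfl)
    rwa [map_ofNat, map_zero] at h
  obtain ⟨a₁, a₂, a₃, a₄, a₅, a₆, hbe⟩ := degree_three hspan hb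
  have hadd : ∀ u v : R, (u + v) ^ 2 = u ^ 2 + v ^ 2 := fun u v => by
    linear_combination (u * v) * h2
  have hsmul : ∀ (a : ZMod 2) (r : R), (a • r) ^ 2 = a • r ^ 2 := by
    intro a r
    rcases (by decide : ∀ a : ZMod 2, a = 0 ∨ a = 1) a with rfl | rfl
    · simp
    · simp
  have z6 : a₁ • x ^ 6 + a₂ • (x ^ 4 * y ^ 2) + a₃ • (x ^ 2 * y ^ 4) + a₄ • y ^ 6 +
      a₅ • (x ^ 2 * m ^ 2) + a₆ • (y ^ 2 * m ^ 2) = 0 := by
    rw [← hsq, hbe, hadd, hadd, hadd, hadd, hadd]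
    simp only [hsmul]
    have k1 : (x ^ 3) ^ 2 = x ^ 6 := by ring
    have k2 : (x ^ 2 * y) ^ 2 = x ^ 4 * y ^ 2 := by ring
    have k3 : (x * y ^ 2) ^ 2 = x ^ 2 * y ^ 4 := by ring
    have k4 : (y ^ 3) ^ 2 = y ^ 6 := by ring
    rw [k1, k2, k3, k4, mul_pow, mul_pow]
  have q6 := (Fintype.linearIndependent_iff.1 (hli6.comp
    (![⟨(6, 0, 0), rfl⟩, ⟨(4, 2, 0), rfl⟩, ⟨(2, 4, 0), rfl⟩, ⟨(0, 6, 0), rfl⟩, ⟨(2, 0, 2), rfl⟩,
      ⟨(0, 2, 2), rfl⟩] : Fin 6 → {e : ℕ × ℕ × ℕ // e.1 + e.2.1 + 2 * e.2.2 = 6}) (by decide)))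
      ![a₁, a₂, a₃, a₄, a₅, a₆] (by
        simp only [Fin.sum_univ_succ, Fin.sum_univ_zero, Function.comp]
        simpa [Theory.monomials, add_assoc] using z6)
  have w1 : a₁ = 0 := q6 0
  have w2 : a₂ = 0 := q6 1
  have w3 : a₃ = 0 := q6 2
  have w4 : a₄ = 0 := q6 3
  have w5 : a₅ = 0 := q6 4
  have w6 : a₆ = 0 := q6 5
  rw [hbe, w1, w2, w3, w4, w5, w6]
  simp

/-- The class `x y²` is not in the image of `φ - 1`. -/
theorem mul_sq_ne_sub {R : Type*} [CommRing R] [Algebra (ZMod 2) R]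
    (G : ℕ → Submodule (ZMod 2) R) (hG : DirectSum.IsInternal G)
    (hmul : ∀ (i j : ℕ) (a b : R), a ∈ G i → b ∈ G j → a * b ∈ G (i + j))
    (x y m : R) (hx : x ∈ G 1) (hy : y ∈ G 1)
    (hspan : Submodule.span (ZMod 2) (Set.range (Theory.monomials x y m 3)) = G 3)
    (hli3 : LinearIndependent (ZMod 2) (Theory.monomials x y m 3))
    (φ : R →ₐ[ZMod 2] R) (hφG : ∀ i, ∀ a ∈ G i, φ a ∈ G i)
    (hφx : φ x = x) (hφy : φ y = y) (hφm : φ m = m + x ^ 2) (c : R) :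
    x * y ^ 2 ≠ φ c - c := by
  intro hc
  obtain ⟨f, hf⟩ := hG.2 c
  have hxy : x * y ^ 2 ∈ G 3 := by
    rw [sq]
    exact hmul 1 2 _ _ hx (hmul 1 1 _ _ hy hy)
  -- the action on the pieces
  let ψ : ∀ i, G i →ₗ[ZMod 2] G i := fun i => φ.toLinearMap.restrict (hφG i)
  have hψ : ∀ g : DirectSum ℕ fun i => G i,
      DirectSum.coeLinearMap G (DirectSum.lmap ψ g) = φ (DirectSum.coeLinearMap G g) := by
    intro g
    have h : (DirectSum.coeLinearMap G) ∘ₗ (DirectSum.lmap ψ) =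
        φ.toLinearMap ∘ₗ (DirectSum.coeLinearMap G) := by
      refine DirectSum.linearMap_ext _ fun i => LinearMap.ext fun z => ?_
      simp [ψ]
    exact LinearMap.congr_fun h g
  have hf' : DirectSum.coeLinearMap G f = c := hf
  have heq : DirectSum.lmap ψ f - f = DirectSum.lof (ZMod 2) ℕ (fun i => G i) 3 ⟨_, hxy⟩ := by
    apply hG.1
    have h : DirectSum.coeLinearMap G (DirectSum.lmap ψ f - f) = DirectSum.coeLinearMap G
        (DirectSum.lof (ZMod 2) ℕ (fun i => G i) 3 ⟨_, hxy⟩) := by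
      rw [map_sub, hψ, hf', ← hc, DirectSum.coeLinearMap_lof]
    exact h
  have h3 := congrArg (fun g => ((g 3 : G 3) : R)) heq
  have h3' : φ (f 3 : R) - (f 3 : R) = x * y ^ 2 := by
    simpa [ψ, DirectSum.lof_eq_of] using h3
  obtain ⟨a₁, a₂, a₃, a₄, a₅, a₆, hbe⟩ := degree_three hspan (f 3).2
  rw [hbe] at h3'
  simp only [map_add, map_smul, map_mul, map_pow, hφx, hφy, hφm] at h3'
  have h2 : (2 : R) = 0 := by
    have h := congrArg (algebraMap (ZMod 2) R) (show (2 : ZMod 2) = 0 from rfl)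
    rwa [map_ofNat, map_zero] at h
  have hrel : a₅ • x ^ 3 + a₆ • (x ^ 2 * y) + x * y ^ 2 = 0 := by
    have hneg : x * y ^ 2 = -(x * y ^ 2) := by linear_combination (x * y ^ 2) * h2
    rw [hneg, ← h3']
    have k1 : x * (m + x ^ 2) = x * m + x ^ 3 := by ring
    have k2 : y * (m + x ^ 2) = y * m + x ^ 2 * y := by ring
    rw [k1, k2]
    simp only [smul_add]
    abel
  have q3 := (Fintype.linearIndependent_iff.1 (hli3.comp
    (![⟨(3, 0, 0), rfl⟩, ⟨(2, 1, 0), rfl⟩, ⟨(1, 2, 0), rfl⟩] :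
      Fin 3 → {e : ℕ × ℕ × ℕ // e.1 + e.2.1 + 2 * e.2.2 = 3}) (by decide)))
      ![a₅, a₆, 1] (by
        simp only [Fin.sum_univ_succ, Fin.sum_univ_zero, Function.comp]
        simpa [Theory.monomials, add_assoc] using hrel)
  have w : (1 : ZMod 2) = 0 := q3 2
  exact absurd w (by decide)

end Pool.Agent.helper29.SS
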