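import Pool.Agent.helper29.SS.Stmt

/-!
# The published theorems in terms of homomorphisms
-/

namespace Pool.Agent.helper29.SS

open CategoryTheory Limits AlgebraicGeometry MonoidalCategory CartesianMonoidalCategory

universe w

variable {F : Type} [Field F] [Fintype F] {W : Theory.{w} F}

namespace Theory

omit [Fintype F] in
variable (W) in
/-- The restriction `H(X) → H(X̄)` as a homomorphism of algebras. -/
noncomputable def resA (X : FSch F) : W.H X →ₐ[ZMod 2] W.H (SS.bar X) := W.pullH (barProj X)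

variable (W) in
/-- The Frobenius action on `H(X̄)` as a homomorphism of algebras. -/
noncomputable def phiA (X : FSch F) : W.H (SS.bar X) →ₐ[ZMod 2] W.H (SS.bar X) :=
  W.pullH (frobBar X)

variable (W) in
/-- The restriction `CH(X) → CH(X̄)` as a homomorphism of rings. -/
noncomputable def resR (X : VarF F) : W.CH X.toVar →+* W.CH X.bar :=
  W.pull (X := X.bar) (Y := X.toVar) (barProj X.1)

variable (W) in
/-- The Frobenius action on `CH(X̄)` as a homomorphism of rings. -/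
noncomputable def phiR (X : VarF F) : W.CH X.bar →+* W.CH X.bar :=
  W.pull (X := X.bar) (Y := X.bar) (frobBar X.1)

variable (h : W.PublishedTheorems)

include h

lemma ch_mul (X : Var F) (i j : ℕ) (a b : W.CH X) (ha : a ∈ W.CHgr X i) (hb : b ∈ W.CHgr X j) :
    a * b ∈ W.CHgr X (i + j) := h.chow.mul X i j a b ha hb

lemma ch_mem {X Y : Var F} (f : X.1 ⟶ Y.1) (i : ℕ) (a : W.CH Y) (ha : a ∈ W.CHgr Y i) :
    W.pull f a ∈ W.CHgr X i := h.chow.mem X Y f i a ha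

lemma coh_mul (X : FSch F) (i j : ℕ) (a b : W.H X) (ha : a ∈ W.Hgr X i) (hb : b ∈ W.Hgr X j) :
    a * b ∈ W.Hgr X (i + j) := h.coh.mul X i j a b ha hb

lemma coh_mem {X Y : FSch F} (f : X ⟶ Y) (i : ℕ) (a : W.H Y) (ha : a ∈ W.Hgr Y i) :
    W.pullH f a ∈ W.Hgr X i := h.coh.mem X Y f i a ha

lemma coh_id (X : FSch F) (a : W.H X) : W.pullH (𝟙 X) a = a := h.coh.id X a

lemma coh_comp {X Y Z : FSch F} (f : X ⟶ Y) (g : Y ⟶ Z) (a : W.H Z) :
    W.pullH (f ≫ g) a = W.pullH f (W.pullH g a) := h.coh.comp X Y Z f g a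

lemma cl_mem (X : Var F) (i : ℕ) (a : W.CH X) (ha : a ∈ W.CHgr X i) :
    W.cl X a ∈ W.Hgr X.1 (2 * i) := h.cycleMap.mem X i a ha

lemma cl_pull {X Y : Var F} (f : X.1 ⟶ Y.1) (a : W.CH Y) :
    W.cl X (W.pull f a) = W.pullH f (W.cl Y a) := h.cycleMap.pull X Y f a

lemma sq_pull {X Y : FSch F} (f : X ⟶ Y) (a : W.H Y) :
    W.Sq X (W.pullH f a) = W.pullH f (W.Sq Y a) := h.steenrod.pull X Y f a

lemma sq_degree (X : FSch F) (n : ℕ) (a : W.H X) (ha : a ∈ W.Hgr X n) : ∃ s : ℕ → W.H X,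
    (∀ i, s i ∈ W.Hgr X (n + i)) ∧ s 0 = a ∧ s n = a ^ 2 ∧
    W.Sq X a = ∑ i ∈ Finset.range (n + 1), s i := by
  obtain ⟨s, hs⟩ := h.steenrod.degree X n a ha
  exact ⟨s, hs.mem, hs.zero, by rw [hs.top, sq], hs.sum⟩

lemma sq_cycle (T : Var F) (s : T.1 ⟶ specBar F) (hT : IsVarBar T.1 s) (z : W.CH T)
    (hz : z ∈ W.CHgr T 2) : W.Sq T.1 (W.cl T z) ∈ ⨆ i : ℕ, W.Hgr T.1 (2 * i) :=
  h.steenrod.cycle T s hT z hz

lemma bd_mem (X : FSch F) (hX : IsVarF X) (i : ℕ) (a : W.H (SS.bar X)) (ha : a ∈ W.Hgr _ i) :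
    W.bd X a ∈ W.Hgr X (i + 1) := h.hochschildSerre.mem X hX i a ha

lemma bd_pull (X Y : FSch F) (hX : IsVarF X) (hY : IsVarF Y) (f : X ⟶ Y)
    (a : W.H (SS.bar Y)) : W.bd X (W.pullH (barMap f) a) = W.pullH f (W.bd Y a) :=
  h.hochschildSerre.pull X Y hX hY f a

lemma bd_mul (X : FSch F) (hX : IsVarF X) (a : W.H (SS.bar X)) (b : W.H X) :
    W.bd X (a * W.resA X b) = W.bd X a * b := h.hochschildSerre.mul X hX a b

lemma bd_eq_zero (X : FSch F) (hX : IsVarF X) (a : W.H (SS.bar X)) :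
    W.bd X a = 0 ↔ ∃ b, a = W.phiA X b - b := h.hochschildSerre.bd_eq_zero X hX a

lemma res_eq_zero (X : FSch F) (hX : IsVarF X) (a : W.H X) :
    W.resA X a = 0 ↔ ∃ b, a = W.bd X b := h.hochschildSerre.res_eq_zero X hX a

lemma range_res (X : FSch F) (hX : IsVarF X) (a : W.H (SS.bar X)) :
    (∃ b, a = W.resA X b) ↔ W.phiA X a = a := h.hochschildSerre.range_res X hX a

lemma kunneth_bijective (X Y : FSch F) (hX : IsNice X) (hY : IsNice Y) : Function.Bijective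
    (Algebra.TensorProduct.productMap (W.pullH (barMap (pr₁ X Y)))
      (W.pullH (barMap (pr₂ X Y)))) := h.kunneth X Y hX hY

lemma coh_point (n : ℕ) (hn : 0 < n) (a : W.H (specBar F)) (ha : a ∈ W.Hgr _ n) : a = 0 :=
  h.curveCohomology.point n hn a ha

lemma coh_connected (X : FSch F) (hX : IsNice X) (a : W.H (SS.bar X)) (ha : a ∈ W.Hgr _ 0) :
    a = 0 ∨ a = 1 := h.curveCohomology.connected X hX a ha

lemma coh_curve (C : FSch F) (hC : IsNice C) (hdim : HasDim C 1) (n : ℕ) (hn : 2 < n) :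
    W.Hgr (SS.bar C) n = ⊥ := by
  rw [eq_bot_iff]
  intro a ha
  exact h.curveCohomology.curve C hC hdim n hn a ha

lemma coh_curve_top (C : VarF F) (hC : IsNice C.1) (hdim : HasDim C.1 1)
    (hne : Nonempty (point F ⟶ C.1)) : ∃ p ∈ W.CHgr C.toVar 1,
    ∀ a ∈ W.Hgr (SS.bar C.1) 2, a = 0 ∨ a = W.resA C.1 (W.cl C.toVar p) := by
  obtain ⟨p, hp, hp'⟩ := h.curveCohomology.top C hC hdim hne
  exact ⟨p, hp, fun a ha => hp' a ha⟩

lemma kum_mem (X : Var F) (a : W.H X.1) (ha : a ∈ W.Hgr X.1 1) : W.kum X a ∈ W.CHgr X 1 :=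
  h.kummer.mem X a ha

lemma kum_two (X : Var F) (a : W.H X.1) (ha : a ∈ W.Hgr X.1 1) : W.kum X a + W.kum X a = 0 :=
  h.kummer.two X a ha

lemma kum_pull {X Y : Var F} (f : X.1 ⟶ Y.1) (a : W.H Y.1) (ha : a ∈ W.Hgr Y.1 1) :
    W.kum X (W.pullH f a) = W.pull f (W.kum Y a) := h.kummer.pull X Y f a ha

lemma cl_kum (T : Var F) (s : T.1 ⟶ specBar F) (hT : IsVarBar T.1 s) (a : W.H T.1)
    (ha : a ∈ W.Hgr T.1 1) : W.cl T (W.kum T a) = a ^ 2 := by
  rw [sq]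
  exact h.kummer.cl T s hT a ha

lemma descent (X : VarF F) (hX : IsNice X.1) (L : W.CH X.bar) (hL : L ∈ W.CHgr X.bar 1)
    (hphi : W.phiR X L = L) : ∃ D ∈ W.CHgr X.toVar 1, W.resR X D = L := by
  obtain ⟨D, hD, hD'⟩ := h.kummer.descent X hX L hL hphi
  exact ⟨D, hD, hD'⟩

lemma cl_boundary (X : VarF F) (hX : IsNice X.1) (D : W.CH X.toVar) (hD : D ∈ W.CHgr X.toVar 1)
    (M : W.CH X.bar) (hM : M ∈ W.CHgr X.bar 1) (a : W.H (SS.bar X.1)) (ha : a ∈ W.Hgr _ 1)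
    (hDM : W.resR X D = M + M) (hphi : W.phiR X M = M + W.kum X.bar a) :
    W.cl X.toVar D = W.bd X.1 a :=
  h.kummer.boundary X hX D M a hD hM ha hDM hphi

end Theory

end Pool.Agent.helper29.SS
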