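import Pool.Agent.helper29.SS.Stmt

/-! # The matrices and the square root of a non-square -/

namespace Pool.Agent.helper29.SS

open scoped Kronecker

namespace Lin

/-- If an invertible matrix anticommutes with the invertible matrix `C`, then the eigenspaces of
`C` have at most half the dimension. -/
theorem finrank_eigenspace_le {K : Type*} [Field K] (h2 : (2 : K) ≠ 0) {ι : Type*} [Fintype ι]
    [DecidableEq ι] (C P : Matrix ι ι K) (hC : IsUnit C) (hP : P * P = 1)
    (hPC : P * C = -(C * P)) (c : K) :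
    2 * Module.finrank K (Module.End.eigenspace (Matrix.toLin' C) c) ≤ Fintype.card ι := by
  classical
  by_cases hc : c = 0
  · subst hc
    have h0 : Module.End.eigenspace (Matrix.toLin' C) (0 : K) = ⊥ := by
      rw [eq_bot_iff]
      intro v hv
      rw [Module.End.mem_eigenspace_iff, zero_smul, Matrix.toLin'_apply] at hv
      obtain ⟨U, hU⟩ := hC
      have h : ((U⁻¹ : (Matrix ι ι K)ˣ).val * C).mulVec v = 0 := by
        rw [← Matrix.mulVec_mulVec, hv, Matrix.mulVec_zero]
      rw [← hU, Units.inv_mul, Matrix.one_mulVec] at h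
      simpa using h
    rw [h0]
    simp
  · -- the map `P` sends the eigenspace of `c` injectively into that of `-c`
    have hmap : ∀ v ∈ Module.End.eigenspace (Matrix.toLin' C) c,
        Matrix.toLin' P v ∈ Module.End.eigenspace (Matrix.toLin' C) (-c) := by
      intro v hv
      rw [Module.End.mem_eigenspace_iff, Matrix.toLin'_apply] at hv
      rw [Module.End.mem_eigenspace_iff, Matrix.toLin'_apply, Matrix.toLin'_apply,
        Matrix.mulVec_mulVec, ← neg_neg (C * P), ← hPC, Matrix.neg_mulVec,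
        ← Matrix.mulVec_mulVec, hv, Matrix.mulVec_smul, neg_smul]
    have hinj : Function.Injective (Matrix.toLin' P) := by
      intro v w hvw
      have := congrArg (Matrix.toLin' P) hvw
      simp only [Matrix.toLin'_apply, Matrix.mulVec_mulVec, hP, Matrix.one_mulVec] at this
      exact this
    have hle : Module.finrank K (Module.End.eigenspace (Matrix.toLin' C) c) ≤
        Module.finrank K (Module.End.eigenspace (Matrix.toLin' C) (-c)) := by
      refine LinearMap.finrank_le_finrank_of_injective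
        (f := (Matrix.toLin' P).restrict hmap) ?_
      intro v w hvw
      apply Subtype.ext
      apply hinj
      exact congrArg Subtype.val hvw
    have hdisj : Disjoint (Module.End.eigenspace (Matrix.toLin' C) c)
        (Module.End.eigenspace (Matrix.toLin' C) (-c)) := by
      rw [Submodule.disjoint_def]
      intro v hv hv'
      rw [Module.End.mem_eigenspace_iff] at hv hv'
      have h : (2 * c) • v = 0 := by
        rw [two_mul, add_smul]
        nth_rewrite 1 [← hv]
        rw [hv', neg_smul, neg_add_cancel]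
      rcases smul_eq_zero.1 h with h' | h'
      · rcases mul_eq_zero.1 h' with h' | h'
        · exact absurd h' h2
        · exact absurd h' hc
      · exact h'
    have hsum := Submodule.finrank_add_finrank_le_of_disjoint hdisj
    rw [Module.finrank_fintype_fun_eq_card] at hsum
    omega

/-- The rank of `C - c` is at least half of the size, in the same situation. -/
theorem le_two_mul_rank {K : Type*} [Field K] (h2 : (2 : K) ≠ 0) {ι : Type*} [Fintype ι]
    [DecidableEq ι] (C P : Matrix ι ι K) (hC : IsUnit C) (hP : P * P = 1)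
    (hPC : P * C = -(C * P)) (c : K) :
    Fintype.card ι ≤ 2 * (C - Matrix.scalar ι c).rank := by
  have h := finrank_eigenspace_le h2 C P hC hP hPC c
  have hker : Module.End.eigenspace (Matrix.toLin' C) c =
      LinearMap.ker (C - Matrix.scalar ι c).mulVecLin := by
    ext v
    rw [Module.End.mem_eigenspace_iff, LinearMap.mem_ker, Matrix.mulVecLin_apply,
      Matrix.sub_mulVec, Matrix.toLin'_apply, Matrix.scalar_apply, sub_eq_zero,
      ← Matrix.smul_one_eq_diagonal, Matrix.smul_mulVec, Matrix.one_mulVec]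
  have hrn := LinearMap.finrank_range_add_finrank_ker (C - Matrix.scalar ι c).mulVecLin
  rw [Module.finrank_fintype_fun_eq_card, ← hker] at hrn
  have hr : (C - Matrix.scalar ι c).rank =
      Module.finrank K (LinearMap.range (C - Matrix.scalar ι c).mulVecLin) := rfl
  omega

end Lin

/-- The action of `(Z/2)²` on a projective space of dimension `4 d + 3` with `A² = u`. -/
theorem exists_matrices (F : Type) [Field F] (h2 : (2 : F) ≠ 0) (u : F) (hu : u ≠ 0) (d : ℕ) :
    ∃ (ι : Type) (_ : Fintype ι) (_ : DecidableEq ι) (A B : Matrix ι ι F),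
      IsProjectiveAction A B u 1 d := by
  classical
  let J : Matrix (Fin 2) (Fin 2) F := !![0, u; 1, 0]
  let D : Matrix (Fin 2) (Fin 2) F := !![1, 0; 0, -1]
  let N : Matrix (Fin 2) (Fin 2) F := !![0, 1; 1, 0]
  have hJJ : J * J = u • (1 : Matrix (Fin 2) (Fin 2) F) := by
    ext i j
    fin_cases i <;> fin_cases j <;> simp [J, Matrix.mul_apply, Fin.sum_univ_two]
  have hDD : D * D = 1 := by
    ext i j
    fin_cases i <;> fin_cases j <;> simp [D, Matrix.mul_apply, Fin.sum_univ_two]
  have hNN : N * N = 1 := by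
    ext i j
    fin_cases i <;> fin_cases j <;> simp [N, Matrix.mul_apply, Fin.sum_univ_two]
  have hDJ : D * J = -(J * D) := by
    ext i j
    fin_cases i <;> fin_cases j <;> simp [D, J, Matrix.mul_apply, Fin.sum_univ_two]
  have hND : N * D = -(D * N) := by
    ext i j
    fin_cases i <;> fin_cases j <;> simp [D, N, Matrix.mul_apply, Fin.sum_univ_two]
  let one4 : Matrix (Fin (d + 1)) (Fin (d + 1)) F := 1
  let A : Matrix (Fin 2 × Fin 2 × Fin (d + 1)) (Fin 2 × Fin 2 × Fin (d + 1)) F := J ⊗ₖ (1 ⊗ₖ one4)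
  let B : Matrix (Fin 2 × Fin 2 × Fin (d + 1)) (Fin 2 × Fin 2 × Fin (d + 1)) F := 1 ⊗ₖ (D ⊗ₖ one4)
  let P : Matrix (Fin 2 × Fin 2 × Fin (d + 1)) (Fin 2 × Fin 2 × Fin (d + 1)) F := D ⊗ₖ (1 ⊗ₖ one4)
  let Q : Matrix (Fin 2 × Fin 2 × Fin (d + 1)) (Fin 2 × Fin 2 × Fin (d + 1)) F := 1 ⊗ₖ (N ⊗ₖ one4)
  have hone : (1 : Matrix (Fin 2) (Fin 2) F) ⊗ₖ ((1 : Matrix (Fin 2) (Fin 2) F) ⊗ₖ one4) = 1 := by
    simp only [one4]
    rw [Matrix.one_kronecker_one, Matrix.one_kronecker_one]
  have h44 : one4 * one4 = one4 := by simp [one4]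
  have hAA : A * A = u • 1 := by
    simp only [A]
    rw [← Matrix.mul_kronecker_mul, ← Matrix.mul_kronecker_mul, hJJ, Matrix.smul_kronecker,
      h44, Matrix.mul_one, hone]
  have hBB : B * B = 1 := by
    simp only [B]
    rw [← Matrix.mul_kronecker_mul, ← Matrix.mul_kronecker_mul, hDD, h44, Matrix.mul_one, hone]
  have hPP : P * P = 1 := by
    simp only [P]
    rw [← Matrix.mul_kronecker_mul, ← Matrix.mul_kronecker_mul, hDD, h44, Matrix.mul_one, hone]
  have hQQ : Q * Q = 1 := by
    simp only [Q]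
    rw [← Matrix.mul_kronecker_mul, ← Matrix.mul_kronecker_mul, hNN, h44, Matrix.mul_one, hone]
  have hAB : A * B = J ⊗ₖ (D ⊗ₖ one4) := by
    simp only [A, B]
    rw [← Matrix.mul_kronecker_mul, ← Matrix.mul_kronecker_mul, h44, Matrix.mul_one,
      Matrix.one_mul]
  have hBA : B * A = J ⊗ₖ (D ⊗ₖ one4) := by
    simp only [A, B]
    rw [← Matrix.mul_kronecker_mul, ← Matrix.mul_kronecker_mul, h44, Matrix.mul_one,
      Matrix.one_mul]
  have hneg : ∀ (R : Matrix (Fin 2) (Fin 2) F) (S : Matrix (Fin 2 × Fin (d + 1)) (Fin 2 × Fin (d + 1)) F),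
      (-R) ⊗ₖ S = -(R ⊗ₖ S) := by
    intro R S
    ext ⟨i, j⟩ ⟨k, l⟩
    simp [Matrix.kroneckerMap_apply]
  have hneg' : ∀ (R : Matrix (Fin 2) (Fin 2) F) (S : Matrix (Fin 2 × Fin (d + 1)) (Fin 2 × Fin (d + 1)) F),
      R ⊗ₖ (-S) = -(R ⊗ₖ S) := by
    intro R S
    ext ⟨i, j⟩ ⟨k, l⟩
    simp [Matrix.kroneckerMap_apply]
  have hneg'' : ∀ (R : Matrix (Fin 2) (Fin 2) F) (S : Matrix (Fin (d + 1)) (Fin (d + 1)) F),
      (-R) ⊗ₖ S = -(R ⊗ₖ S) := by
    intro R S
    ext ⟨i, j⟩ ⟨k, l⟩
    simp [Matrix.kroneckerMap_apply]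
  have hPA : P * A = -(A * P) := by
    simp only [P, A]
    rw [← Matrix.mul_kronecker_mul, ← Matrix.mul_kronecker_mul J D, hDJ, hneg]
  have hQB : Q * B = -(B * Q) := by
    simp only [Q, B]
    rw [← Matrix.mul_kronecker_mul, ← Matrix.mul_kronecker_mul, ← Matrix.mul_kronecker_mul,
      ← Matrix.mul_kronecker_mul, hND, hneg'', hneg']
  have hPB : P * B = B * P := by
    simp only [P, B]
    rw [← Matrix.mul_kronecker_mul, ← Matrix.mul_kronecker_mul, ← Matrix.mul_kronecker_mul,
      ← Matrix.mul_kronecker_mul]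
    simp
  have hPAB : P * (A * B) = -((A * B) * P) := by
    rw [← Matrix.mul_assoc, hPA, Matrix.neg_mul, Matrix.mul_assoc, hPB, ← Matrix.mul_assoc]
  have hABAB : (A * B) * (A * B) = u • 1 := by
    calc (A * B) * (A * B) = A * (B * A) * B := by simp only [Matrix.mul_assoc]
      _ = A * (A * B) * B := by rw [hBA, ← hAB]
      _ = (A * A) * (B * B) := by simp only [Matrix.mul_assoc]
      _ = u • 1 := by rw [hAA, hBB, Matrix.mul_one]
  -- the key statement over the algebraic closure
  have key : ∀ (C R : Matrix (Fin 2 × Fin 2 × Fin (d + 1)) (Fin 2 × Fin 2 × Fin (d + 1)) F)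
      (v : F), v ≠ 0 → C * C = v • 1 → R * R = 1 → R * C = -(C * R) →
      ∀ c : AlgebraicClosure F, d < eigenCodim C c := by
    intro C R v hv hCC hRR hRC c
    set f := algebraMap F (AlgebraicClosure F) with hf
    have hinj : Function.Injective f := f.injective
    have h2' : (2 : AlgebraicClosure F) ≠ 0 := by
      have h : f 2 ≠ 0 := by
        rw [Ne, map_eq_zero]; exact h2
      rwa [map_ofNat] at h
    have hunit : IsUnit (C.map f) := by
      refine IsUnit.of_mul_eq_one ((v⁻¹ • C).map f) ?_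
      rw [← Matrix.map_mul, Matrix.mul_smul, hCC, smul_smul, inv_mul_cancel₀ hv, one_smul]
      simp
    have h := Lin.le_two_mul_rank h2' (C.map f) (R.map f) hunit
      (by rw [← Matrix.map_mul, hRR]; simp)
      (by
        rw [← Matrix.map_mul, ← Matrix.map_mul, hRC]
        ext i j
        rw [Matrix.map_apply, Matrix.neg_apply, Matrix.neg_apply, Matrix.map_apply, map_neg])
      c
    have hcard : Fintype.card (Fin 2 × Fin 2 × Fin (d + 1)) = 4 * (d + 1) := by
      simp only [Fintype.card_prod, Fintype.card_fin]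
      ring
    rw [hcard] at h
    have he : eigenCodim C c = (C.map f - Matrix.scalar _ c).rank := rfl
    omega
  refine ⟨Fin 2 × Fin 2 × Fin (d + 1), inferInstance, inferInstance, A, B,
    ⟨hu, one_ne_zero, ?_, ?_, ?_, ?_⟩⟩
  · rw [hAA, Matrix.scalar_apply, Matrix.smul_one_eq_diagonal]
  · rw [hBB, map_one]
  · rw [hAB, hBA]
  · intro c
    exact ⟨key A P u hu hAA hPP hPA c, key B Q 1 one_ne_zero (by rw [hBB, one_smul]) hQQ hQB c,
      key (A * B) P u hu hABAB hPP hPAB c⟩

/-- The Frobenius changes the sign of the square root of a non-square. -/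
theorem exists_root (F : Type) [Field F] [Fintype F] (u : F) (hu : ¬ IsSquare u) :
    ∃ s : AlgebraicClosure F, s ^ 2 * algebraMap F _ u = 1 ∧ s ^ Fintype.card F = -s := by
  classical
  have hu0 : u ≠ 0 := by
    rintro rfl
    exact hu (IsSquare.zero)
  have hchar : ringChar F ≠ 2 := by
    intro h
    exact hu (FiniteField.isSquare_of_char_two h u)
  obtain ⟨s, hs⟩ := IsAlgClosed.exists_pow_nat_eq
    ((algebraMap F (AlgebraicClosure F) u)⁻¹) (n := 2) (by norm_num)
  have hfu : algebraMap F (AlgebraicClosure F) u ≠ 0 := by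
    rw [Ne, map_eq_zero]; exact hu0
  have hs1 : s ^ 2 * algebraMap F (AlgebraicClosure F) u = 1 := by
    rw [hs, inv_mul_cancel₀ hfu]
  refine ⟨s, hs1, ?_⟩
  have hs0 : s ≠ 0 := by
    rintro rfl
    simp at hs1
  have hsq : (s ^ Fintype.card F) ^ 2 = s ^ 2 := by
    rw [← pow_mul, mul_comm, pow_mul, hs, inv_pow, ← map_pow, FiniteField.pow_card]
  rcases sq_eq_sq_iff_eq_or_eq_neg.1 hsq with h | h
  · exfalso
    apply hu
    rw [FiniteField.isSquare_iff hchar hu0]
    have hodd : Fintype.card F % 2 = 1 := FiniteField.odd_card_of_char_ne_two hchar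
    have h1 : s ^ (2 * (Fintype.card F / 2)) = 1 := by
      have h2 : 2 * (Fintype.card F / 2) + 1 = Fintype.card F := by omega
      have h3 : s ^ (2 * (Fintype.card F / 2)) * s = 1 * s := by
        rw [← pow_succ, h2, h, one_mul]
      exact mul_right_cancel₀ hs0 h3
    rw [pow_mul, hs, inv_pow, inv_eq_one, ← map_pow] at h1
    exact (algebraMap F (AlgebraicClosure F)).injective (by rw [h1, map_one])
  · exact h

end Pool.Agent.helper29.SS
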