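import Pool.Agent.helper29.SS.Main
import Pool.Agent.helper29.SS.Alg
import Pool.Agent.helper29.SS.Lin

/-!
# The cycle class which is algebraically equivalent to zero over `F̄` but not over `F`
-/

namespace Pool.Agent.helper29.SS

open CategoryTheory Limits AlgebraicGeometry MonoidalCategory CartesianMonoidalCategory

universe w

variable {F : Type} [Field F] [Fintype F] {W : Theory.{w} F}

namespace Theory

/-- The main theorem for a Godeaux-Serre variety for an action with `A² = u` non-square. -/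
theorem exists_cycle (h : W.PublishedTheorems) (X : VarF F) (hX : IsNice X.1) (u : F) (d : ℕ)
    (hd : 6 ≤ d) (s : AlgebraicClosure F) (hs : s ^ 2 * algebraMap F _ u = 1)
    (hsq : s ^ Fintype.card F = -s) (x y : W.H (SS.bar X.1))
    (M : AlgebraicClosure F → AlgebraicClosure F → W.CH X.bar)
    (hGS : W.IsGodeauxSerre u 1 d X x y M) :
    ∃ z ∈ W.Alg X, z ∉ W.FAlg X := by
  have h11 : (1 : AlgebraicClosure F) ^ 2 * algebraMap F _ 1 = 1 := by simp
  have hl := hGS.lifts s 1 hs h11
  set L : W.CH X.bar := M s 1 with hL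
  have hLmem : L ∈ W.CHgr X.bar 1 := hl.mem
  set m : W.H (SS.bar X.1) := W.cl X.bar L with hm
  have hbarvar : IsVarBar X.bar.1 (snd X.1 (specBar F) ≫ 𝟙 _) :=
    isVarBar_prod X.2 isVarBar_specBar
  have hxm : x ∈ W.Hgr (SS.bar X.1) 1 := hGS.x_mem
  have hym : y ∈ W.Hgr (SS.bar X.1) 1 := hGS.y_mem
  -- Frobenius on `M`
  have hphiL : W.phiR X L = L + W.kum X.bar x := by
    have e1 : W.phiR X L = M (s ^ Fintype.card F) (1 ^ Fintype.card F) := hl.frob
    have e2 : M (-s) 1 = L + W.kum X.bar x := hl.left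
    rw [e1, hsq, one_pow, e2]
  have hphim : W.phiA X.1 m = m + x ^ 2 := by
    rw [hm, ← cl_phi h X L, hphiL, map_add]
    congr 1
    exact cl_kum h X.bar _ hbarvar x hxm
  -- squares of classes of degree 3
  have hspan : Submodule.span (ZMod 2) (Set.range (monomials x y m 3)) = W.Hgr (SS.bar X.1) 3 :=
    hl.span 3 (by omega)
  have hli3 : LinearIndependent (ZMod 2) (monomials x y m 3) := hl.independent 3 (by omega)
  have hli6 : LinearIndependent (ZMod 2) (monomials x y m 6) := hl.independent 6 hd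
  have hP : W.SquareInj X.1 := fun b hb hsq =>
    eq_zero_of_sq_eq_zero (W.Hgr _) x y m hspan hli6 b hb hsq
  -- the divisors `D` and `E`
  have hphi2 : W.phiR X (L + L) = L + L := by
    rw [map_add, hphiL]
    calc L + W.kum X.bar x + (L + W.kum X.bar x)
        = L + L + (W.kum X.bar x + W.kum X.bar x) := by abel
      _ = L + L := by rw [kum_two h X.bar x hxm, add_zero]
  obtain ⟨D, hD, hDres⟩ := descent h X hX (L + L) (AddSubgroup.add_mem _ hLmem hLmem) hphi2
  have hphiy : W.phiR X (W.kum X.bar y) = W.kum X.bar y :=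
    (kum_pull h (X := X.bar) (Y := X.bar) (frobBar X.1) y hym).symm.trans
      (congrArg (W.kum X.bar) hGS.frob_y)
  obtain ⟨E, hE, hEres⟩ := descent h X hX (W.kum X.bar y) (kum_mem h X.bar y hym) hphiy
  refine ⟨D * E, ⟨ch_mul h _ 1 1 _ _ hD hE, ?_⟩, ?_⟩
  · have hres : W.resHom X (D * E) = 0 := by
      have e : W.resHom X (D * E) = W.resR X (D * E) := rfl
      rw [e, map_mul, hDres, hEres]
      calc (L + L) * W.kum X.bar y = L * (W.kum X.bar y + W.kum X.bar y) := by ring
        _ = 0 := by rw [kum_two h X.bar y hym, mul_zero]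
    have hc : D * E ∈ (W.AlgBar X).comap (W.resHom X) := by
      rw [AddSubgroup.mem_comap, hres]
      exact AddSubgroup.zero_mem _
    exact hc
  · intro hz
    have hcl : W.cl X.toVar (D * E) = 0 := cl_fAlg h X hX hP _ hz
    have hclD : W.cl X.toVar D = W.bd X.1 x :=
      cl_boundary h X hX D hD L hLmem x hxm hDres hphiL
    have hclE : W.resA X.1 (W.cl X.toVar E) = y ^ 2 := by
      rw [← cl_res h X E, hEres]
      exact cl_kum h X.bar _ hbarvar y hym
    rw [map_mul, hclD] at hcl
    have hbd := bd_mul h X.1 X.2 x (W.cl X.toVar E)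
    rw [hclE] at hbd
    have hbd0 : W.bd X.1 (x * y ^ 2) = 0 := hbd.trans hcl
    obtain ⟨c, hc⟩ := (bd_eq_zero h X.1 X.2 _).1 hbd0
    exact mul_sq_ne_sub (W.Hgr _) (h.coh.internal _) (coh_mul h _) x y m hxm hym hspan hli3
      (W.phiA X.1) (coh_mem h _) hGS.frob_x hGS.frob_y hphim c hc

/-- For every finite field `F` of odd characteristic and every `d ≥ 6` there is a smooth
projective geometrically connected variety of dimension `d` over `F` on which algebraic
equivalence over `F` and over the algebraic closure differ. -/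
theorem exists_variety (h2 : (2 : F) ≠ 0) (h : W.PublishedTheorems) (d : ℕ) (hd : 6 ≤ d) :
    ∃ X : VarF F, IsNice X.1 ∧ HasDim X.1 d ∧ ∃ z ∈ W.Alg X, z ∉ W.FAlg X := by
  obtain ⟨u, hu⟩ := FiniteField.exists_nonsquare (F := F) (by
    intro h
    have := ringChar.spec F 2
    rw [h] at this
    exact h2 (by simpa using this.2 dvd_rfl))
  have hu0 : u ≠ 0 := by
    rintro rfl
    exact hu (IsSquare.zero)
  obtain ⟨s, hs, hsq⟩ := exists_root F u hu
  obtain ⟨ι, hι, hι', A, B, hAB⟩ := exists_matrices F h2 u hu0 d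
  obtain ⟨X, hX, x, y, M, hGS⟩ := h.godeauxSerre h2 ι A B u 1 d (by omega) hAB
  exact ⟨X, hX, hGS.dim, exists_cycle h X hX u d hd s hs hsq x y M hGS⟩

end Theory

end Pool.Agent.helper29.SS
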