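import Mathlib

/-!
# Internally graded vector spaces: homogeneous components
-/

namespace Pool.Agent.helper29.SS

section

variable {k R : Type*} [Field k] [AddCommGroup R] [Module k R] {G : ℕ → Submodule k R}

lemma bijective_coe (hG : DirectSum.IsInternal G) :
    Function.Bijective (DirectSum.coeLinearMap G) := hG

/-- The decomposition into homogeneous components. -/
noncomputable def dec (hG : DirectSum.IsInternal G) : (DirectSum ℕ fun i => G i) ≃ₗ[k] R :=
  LinearEquiv.ofBijective (DirectSum.coeLinearMap G) (bijective_coe hG)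

lemma dec_lof (hG : DirectSum.IsInternal G) (n : ℕ) (a : G n) :
    dec hG (DirectSum.lof k ℕ (fun i => G i) n a) = a := by
  simp [dec]

/-- The homogeneous component of degree `n`. -/
noncomputable def pr (hG : DirectSum.IsInternal G) (n : ℕ) : R →ₗ[k] R :=
  (G n).subtype ∘ₗ DirectSum.component k ℕ (fun i => G i) n ∘ₗ (dec hG).symm.toLinearMap

lemma pr_mem (hG : DirectSum.IsInternal G) (n : ℕ) (a : R) : pr hG n a ∈ G n := by
  simp [pr]

lemma symm_apply_of_mem (hG : DirectSum.IsInternal G) {n : ℕ} {a : R} (ha : a ∈ G n) :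
    (dec hG).symm a = DirectSum.lof k ℕ (fun i => G i) n ⟨a, ha⟩ := by
  rw [LinearEquiv.symm_apply_eq, dec_lof]

lemma pr_of_mem (hG : DirectSum.IsInternal G) {n : ℕ} {a : R} (ha : a ∈ G n) :
    pr hG n a = a := by
  simp only [pr, LinearMap.comp_apply, LinearEquiv.coe_coe, symm_apply_of_mem hG ha]
  rw [DirectSum.component.lof_self]
  rfl

lemma pr_of_mem_ne (hG : DirectSum.IsInternal G) {m n : ℕ} (h : m ≠ n) {a : R}
    (ha : a ∈ G m) : pr hG n a = 0 := by
  simp only [pr, LinearMap.comp_apply, LinearEquiv.coe_coe, symm_apply_of_mem hG ha]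
  rw [DirectSum.component.of]
  simp [h]

lemma induction_homogeneous (hG : DirectSum.IsInternal G) {P : R → Prop} (a : R)
    (h0 : P 0) (hadd : ∀ a b, P a → P b → P (a + b)) (hom : ∀ i, ∀ a ∈ G i, P a) : P a := by
  have ha : a ∈ iSup G := by
    rw [hG.submodule_iSup_eq_top]
    trivial
  exact Submodule.iSup_induction G (motive := P) ha hom h0 hadd

/-- An element whose components in degrees `0, 1, 2` only can be nonzero. -/
lemma eq_sum_three (hG : DirectSum.IsInternal G) (h : ∀ n, 2 < n → G n = ⊥) (a : R) :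
    a = pr hG 0 a + pr hG 1 a + pr hG 2 a := by
  refine induction_homogeneous (P := fun a => a = pr hG 0 a + pr hG 1 a + pr hG 2 a) hG a
    ?_ ?_ ?_
  · simp only [map_zero, add_zero]
  · intro a b ha hb
    rw [map_add, map_add, map_add]
    nth_rewrite 1 [ha, hb]
    abel
  · intro i a ha
    rcases lt_or_ge 2 i with hi | hi
    · rw [h i hi, Submodule.mem_bot] at ha
      simp only [ha, map_zero, add_zero]
    · interval_cases i
      · rw [pr_of_mem hG ha, pr_of_mem_ne hG (by norm_num) ha, pr_of_mem_ne hG (by norm_num) ha,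
          add_zero, add_zero]
      · rw [pr_of_mem hG ha, pr_of_mem_ne hG (by norm_num) ha, pr_of_mem_ne hG (by norm_num) ha,
          add_zero, zero_add]
      · rw [pr_of_mem hG ha, pr_of_mem_ne hG (by norm_num) ha, pr_of_mem_ne hG (by norm_num) ha,
          zero_add, zero_add]

end

end Pool.Agent.helper29.SS
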