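import Pool.Agent.helper29.SS.Grad

/-!
# The Kunneth formula for the product with a curve: slant products
-/

namespace Pool.Agent.helper29.SS

open TensorProduct

/-- A linear algebra lemma: a tensor is zero if all functionals on the right factor kill it. -/
lemma tensor_eq_zero {k V U : Type*} [Field k] [AddCommGroup V] [Module k V] [AddCommGroup U]
    [Module k U] (t : V ⊗[k] U) (h : ∀ μ : U →ₗ[k] k, LinearMap.lTensor V μ t = 0) : t = 0 := by
  classical
  let b := Module.Basis.ofVectorSpace k U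
  apply (TensorProduct.equivFinsuppOfBasisRight (M := V) b).injective
  rw [map_zero]
  ext i
  have hi := congrArg (TensorProduct.rid k V) (h (b.coord i))
  rw [map_zero] at hi
  rw [Finsupp.zero_apply, ← hi]
  clear hi h
  induction t using TensorProduct.induction_on with
  | zero => simp
  | tmul x y => simp
  | add x y hx hy => simp only [map_add, Finsupp.add_apply, hx, hy]

section

variable {R₁ R₂ R₃ : Type*} [CommRing R₁] [CommRing R₂] [CommRing R₃] [Algebra (ZMod 2) R₁]
  [Algebra (ZMod 2) R₂] [Algebra (ZMod 2) R₃]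
  {G₁ : ℕ → Submodule (ZMod 2) R₁} {G₂ : ℕ → Submodule (ZMod 2) R₂}
  {G₃ : ℕ → Submodule (ZMod 2) R₃}
  {p : R₁ →ₐ[ZMod 2] R₃} {q : R₂ →ₐ[ZMod 2] R₃}

/-- The Kunneth isomorphism. -/
noncomputable def kunEquiv (hK : Function.Bijective (Algebra.TensorProduct.productMap p q)) :
    (R₁ ⊗[ZMod 2] R₂) ≃ₐ[ZMod 2] R₃ :=
  AlgEquiv.ofBijective (Algebra.TensorProduct.productMap p q) hK

lemma kunEquiv_tmul (hK : Function.Bijective (Algebra.TensorProduct.productMap p q)) (a : R₁)
    (c : R₂) : kunEquiv hK (a ⊗ₜ c) = p a * q c := by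
  simp [kunEquiv]

lemma kunEquiv_symm (hK : Function.Bijective (Algebra.TensorProduct.productMap p q)) (a : R₁)
    (c : R₂) : (kunEquiv hK).symm (p a * q c) = a ⊗ₜ c := by
  rw [AlgEquiv.symm_apply_eq, kunEquiv_tmul]

/-- The slant product with a functional on the cohomology of the second factor. -/
noncomputable def slant (hK : Function.Bijective (Algebra.TensorProduct.productMap p q))
    (lam : R₂ →ₗ[ZMod 2] ZMod 2) : R₃ →ₗ[ZMod 2] R₁ :=
  (TensorProduct.rid (ZMod 2) R₁).toLinearMap ∘ₗ LinearMap.lTensor R₁ lam ∘ₗ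
    (kunEquiv hK).symm.toLinearMap

lemma slant_apply (hK : Function.Bijective (Algebra.TensorProduct.productMap p q))
    (lam : R₂ →ₗ[ZMod 2] ZMod 2) (a : R₁) (c : R₂) :
    slant hK lam (p a * q c) = lam c • a := by
  simp only [slant, LinearMap.comp_apply, AlgEquiv.toLinearMap_apply, kunEquiv_symm]
  simp

lemma kun_induction (hK : Function.Bijective (Algebra.TensorProduct.productMap p q))
    {P : R₃ → Prop} (v : R₃) (h0 : P 0) (hadd : ∀ a b, P a → P b → P (a + b))
    (hpure : ∀ a c, P (p a * q c)) : P v := by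
  obtain ⟨t, rfl⟩ := (kunEquiv hK).surjective v
  induction t using TensorProduct.induction_on with
  | zero => simpa using h0
  | tmul a c => rw [kunEquiv_tmul]; exact hpure a c
  | add a b ha hb => rw [map_add]; exact hadd _ _ ha hb

/-- The slant product is compatible with total Steenrod squares if the functional is. -/
lemma slant_sq (hK : Function.Bijective (Algebra.TensorProduct.productMap p q))
    (lam : R₂ →ₗ[ZMod 2] ZMod 2) (S₁ : R₁ →+* R₁) (S₂ : R₂ →+* R₂) (S₃ : R₃ →+* R₃)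
    (hp : ∀ a, S₃ (p a) = p (S₁ a)) (hq : ∀ c, S₃ (q c) = q (S₂ c))
    (hlam : ∀ c, lam (S₂ c) = lam c) (v : R₃) : slant hK lam (S₃ v) = S₁ (slant hK lam v) := by
  refine kun_induction (P := fun v => slant hK lam (S₃ v) = S₁ (slant hK lam v)) hK v
    (by simp only [map_zero]) ?_ ?_
  · intro a b ha hb
    simp only [map_add, ha, hb]
  · intro a c
    rw [map_mul, hp, hq, slant_apply, slant_apply, hlam, ZMod.map_smul S₁]

/-- A functional vanishing outside degree one is compatible with the total square. -/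
lemma lam_sq (hG₂ : DirectSum.IsInternal G₂) (lam : R₂ →ₗ[ZMod 2] ZMod 2)
    (hlam : ∀ n, n ≠ 1 → ∀ c ∈ G₂ n, lam c = 0) (S₂ : R₂ →+* R₂)
    (hS : ∀ n, ∀ c ∈ G₂ n, ∃ s : ℕ → R₂, (∀ i, s i ∈ G₂ (n + i)) ∧ s 0 = c ∧ s n = c ^ 2 ∧
      S₂ c = ∑ i ∈ Finset.range (n + 1), s i) (c : R₂) : lam (S₂ c) = lam c := by
  refine induction_homogeneous (P := fun c => lam (S₂ c) = lam c) hG₂ c
    (by simp only [map_zero]) ?_ ?_
  · intro a b ha hb
    simp only [map_add, ha, hb]
  · intro n c hc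
    obtain ⟨s, hs, hs0, -, hsum⟩ := hS n c hc
    rw [hsum, map_sum, Finset.sum_range_succ', Finset.sum_eq_zero, zero_add, hs0]
    intro i hi
    by_cases h1 : n + (i + 1) = 1
    · have hn : n = 0 := by omega
      subst hn
      simp at hi
    · exact hlam _ h1 _ (hs (i + 1))

/-- Homogeneous elements of the product are sums of products of homogeneous elements. -/
lemma mem_span_homogeneous (hK : Function.Bijective (Algebra.TensorProduct.productMap p q))
    (hG₁ : DirectSum.IsInternal G₁) (hG₂ : DirectSum.IsInternal G₂)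
    (hG₃ : DirectSum.IsInternal G₃)
    (hmul : ∀ (i j : ℕ) (a b : R₃), a ∈ G₃ i → b ∈ G₃ j → a * b ∈ G₃ (i + j))
    (hp : ∀ i, ∀ a ∈ G₁ i, p a ∈ G₃ i) (hq : ∀ i, ∀ c ∈ G₂ i, q c ∈ G₃ i)
    (n : ℕ) (v : R₃) (hv : v ∈ G₃ n) :
    v ∈ Submodule.span (ZMod 2) {w | ∃ i j a c, i + j = n ∧ a ∈ G₁ i ∧ c ∈ G₂ j ∧
      w = p a * q c} := by
  rw [← pr_of_mem hG₃ hv]
  clear hv
  refine kun_induction (P := fun v => pr hG₃ n v ∈ Submodule.span (ZMod 2) {w | ∃ i j a c,
    i + j = n ∧ a ∈ G₁ i ∧ c ∈ G₂ j ∧ w = p a * q c}) hK v ?_ ?_ ?_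
  · simp only [map_zero, Submodule.zero_mem]
  · intro a b ha hb
    rw [map_add]
    exact Submodule.add_mem _ ha hb
  · intro a c
    refine induction_homogeneous (P := fun a => pr hG₃ n (p a * q c) ∈
      Submodule.span (ZMod 2) {w | ∃ i j a c, i + j = n ∧ a ∈ G₁ i ∧ c ∈ G₂ j ∧
      w = p a * q c}) hG₁ a ?_ ?_ ?_
    · simp only [map_zero, zero_mul, Submodule.zero_mem]
    · intro a b ha hb
      rw [map_add, add_mul, map_add]
      exact Submodule.add_mem _ ha hb
    · intro i a ha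
      refine induction_homogeneous (P := fun c => pr hG₃ n (p a * q c) ∈
        Submodule.span (ZMod 2) {w | ∃ i j a c, i + j = n ∧ a ∈ G₁ i ∧ c ∈ G₂ j ∧
        w = p a * q c}) hG₂ c ?_ ?_ ?_
      · simp only [map_zero, mul_zero, Submodule.zero_mem]
      · intro b c hb hc
        rw [map_add, mul_add, map_add]
        exact Submodule.add_mem _ hb hc
      · intro j c hc
        have hm := hmul i j _ _ (hp i a ha) (hq j c hc)
        by_cases hij : i + j = n
        · rw [hij] at hm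
          rw [pr_of_mem hG₃ hm]
          exact Submodule.subset_span ⟨i, j, a, c, hij, ha, hc, rfl⟩
        · rw [pr_of_mem_ne hG₃ hij hm]
          exact Submodule.zero_mem _

/-- The slant product with a functional of degree one lowers the degree by one. -/
lemma slant_mem (hK : Function.Bijective (Algebra.TensorProduct.productMap p q))
    (hG₁ : DirectSum.IsInternal G₁) (hG₂ : DirectSum.IsInternal G₂)
    (hG₃ : DirectSum.IsInternal G₃)
    (hmul : ∀ (i j : ℕ) (a b : R₃), a ∈ G₃ i → b ∈ G₃ j → a * b ∈ G₃ (i + j))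
    (hp : ∀ i, ∀ a ∈ G₁ i, p a ∈ G₃ i) (hq : ∀ i, ∀ c ∈ G₂ i, q c ∈ G₃ i)
    (lam : R₂ →ₗ[ZMod 2] ZMod 2) (hlam : ∀ n, n ≠ 1 → ∀ c ∈ G₂ n, lam c = 0)
    (n : ℕ) (v : R₃) (hv : v ∈ G₃ (n + 1)) : slant hK lam v ∈ G₁ n := by
  have h := mem_span_homogeneous hK hG₁ hG₂ hG₃ hmul hp hq (n + 1) v hv
  have hle : Submodule.span (ZMod 2) {w | ∃ i j a c, i + j = n + 1 ∧ a ∈ G₁ i ∧ c ∈ G₂ j ∧
      w = p a * q c} ≤ (G₁ n).comap (slant hK lam) := by
    rw [Submodule.span_le]
    rintro w ⟨i, j, a, c, hij, ha, hc, rfl⟩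
    rw [SetLike.mem_coe, Submodule.mem_comap, slant_apply]
    by_cases hj : j = 1
    · have hi : i = n := by omega
      subst hi
      exact Submodule.smul_mem _ _ ha
    · rw [hlam j hj c hc, zero_smul]
      exact Submodule.zero_mem _
  exact hle h

lemma exists_tmul_of_map {k V U : Type*} [Field k] [AddCommGroup V] [Module k V] [AddCommGroup U]
    [Module k U] (g : U →ₗ[k] U) (w : U) (hg : ∀ c, g c = 0 ∨ g c = w) (t : V ⊗[k] U) :
    ∃ e : V, LinearMap.lTensor V g t = e ⊗ₜ w := by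
  induction t using TensorProduct.induction_on with
  | zero => exact ⟨0, by simp⟩
  | tmul a c =>
    rcases hg c with h | h
    · exact ⟨0, by simp [h]⟩
    · exact ⟨a, by simp [h]⟩
  | add a b ha hb =>
    obtain ⟨e, he⟩ := ha
    obtain ⟨f, hf⟩ := hb
    exact ⟨e + f, by rw [map_add, he, hf, TensorProduct.add_tmul]⟩

/-- If all slant products by functionals of degree one vanish, only the components with
degrees 0 and 2 on the curve remain. -/
lemma kun_decomposition (hK : Function.Bijective (Algebra.TensorProduct.productMap p q))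
    (hG₂ : DirectSum.IsInternal G₂) (htop : ∀ n, 2 < n → G₂ n = ⊥)
    (h0 : ∀ c ∈ G₂ 0, c = 0 ∨ c = 1) (w : R₂) (hw : ∀ c ∈ G₂ 2, c = 0 ∨ c = w) (v : R₃)
    (hs : ∀ lam : R₂ →ₗ[ZMod 2] ZMod 2, (∀ n, n ≠ 1 → ∀ c ∈ G₂ n, lam c = 0) →
      slant hK lam v = 0) : ∃ e f : R₁, v = p e + p f * q w := by
  have hid : (LinearMap.id : R₂ →ₗ[ZMod 2] R₂) = pr hG₂ 0 + pr hG₂ 1 + pr hG₂ 2 := by
    ext c
    exact eq_sum_three hG₂ htop c
  have h1 : LinearMap.lTensor R₁ (pr hG₂ 1) ((kunEquiv hK).symm v) = 0 := by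
    refine tensor_eq_zero _ fun μ => ?_
    have hlam := hs (μ ∘ₗ pr hG₂ 1) (fun n hn c hc => by
      rw [LinearMap.comp_apply, pr_of_mem_ne hG₂ hn hc, map_zero])
    apply (TensorProduct.rid (ZMod 2) R₁).injective
    rw [map_zero, ← hlam, ← LinearMap.comp_apply (LinearMap.lTensor R₁ μ),
      ← LinearMap.lTensor_comp]
    rfl
  obtain ⟨e, he⟩ := exists_tmul_of_map (pr hG₂ 0) (1 : R₂) (fun c => h0 _ (pr_mem hG₂ 0 c))
    ((kunEquiv hK).symm v)
  obtain ⟨f, hf⟩ := exists_tmul_of_map (pr hG₂ 2) w (fun c => hw _ (pr_mem hG₂ 2 c))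
    ((kunEquiv hK).symm v)
  refine ⟨e, f, ?_⟩
  apply (kunEquiv hK).symm.injective
  have hsum : (kunEquiv hK).symm v = e ⊗ₜ 1 + f ⊗ₜ w := by
    calc (kunEquiv hK).symm v
        = LinearMap.lTensor R₁ LinearMap.id ((kunEquiv hK).symm v) := by
          rw [LinearMap.lTensor_id, LinearMap.id_apply]
      _ = e ⊗ₜ 1 + f ⊗ₜ w := by
          rw [hid, LinearMap.lTensor_add, LinearMap.lTensor_add, LinearMap.add_apply,
            LinearMap.add_apply, he, h1, hf, add_zero]
  rw [hsum, map_add, kunEquiv_symm]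
  congr 1
  rw [← kunEquiv_symm hK, map_one, mul_one]

/-- Injectivity of `f ↦ p f * q w`. -/
lemma kun_injective (hK : Function.Bijective (Algebra.TensorProduct.productMap p q)) (w : R₂)
    (hw : w ≠ 0) (f : R₁) (hf : p f * q w = 0) : f = 0 := by
  by_contra hne
  apply hw
  rw [← Module.forall_dual_apply_eq_zero_iff (ZMod 2)]
  intro μ
  have h := slant_apply hK μ f w
  rw [hf, map_zero] at h
  by_contra hμ
  have h1 : μ w = 1 := by
    have h2 : ∀ z : ZMod 2, z = 0 ∨ z = 1 := by decide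
    exact (h2 (μ w)).resolve_left hμ
  rw [h1, one_smul] at h
  exact hne h.symm

/-- Two points of the curve induce the same map in cohomology over the algebraic closure. -/
lemma kun_points (hK : Function.Bijective (Algebra.TensorProduct.productMap p q))
    (hG₂ : DirectSum.IsInternal G₂) (h0 : ∀ c ∈ G₂ 0, c = 0 ∨ c = 1)
    (t₀ t₁ : R₃ →ₐ[ZMod 2] R₁) (h₀p : ∀ a, t₀ (p a) = a) (h₁p : ∀ a, t₁ (p a) = a)
    (h₀q : ∀ n, 0 < n → ∀ c ∈ G₂ n, t₀ (q c) = 0)
    (h₁q : ∀ n, 0 < n → ∀ c ∈ G₂ n, t₁ (q c) = 0) (v : R₃) : t₀ v = t₁ v := by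
  have hq : ∀ c, t₀ (q c) = t₁ (q c) := by
    intro c
    refine induction_homogeneous (P := fun c => t₀ (q c) = t₁ (q c)) hG₂ c
      (by simp only [map_zero]) ?_ ?_
    · intro a b ha hb
      simp only [map_add, ha, hb]
    · intro n c hc
      rcases Nat.eq_zero_or_pos n with hn | hn
      · subst hn
        rcases h0 c hc with h | h
        · simp only [h, map_zero]
        · simp only [h, map_one]
      · rw [h₀q n hn c hc, h₁q n hn c hc]
  refine kun_induction (P := fun v => t₀ v = t₁ v) hK v (by simp only [map_zero]) ?_ ?_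
  · intro a b ha hb
    simp only [map_add, ha, hb]
  · intro a c
    rw [map_mul, map_mul, h₀p, h₁p, hq]

end

end Pool.Agent.helper29.SS
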