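import Pool.Agent.helper29.SS.Bridge
import Pool.Agent.helper29.SS.Kun

/-!
# The cycle class vanishes on `CH²(X)_{F-alg}`
-/

namespace Pool.Agent.helper29.SS

open CategoryTheory Limits AlgebraicGeometry MonoidalCategory CartesianMonoidalCategory

universe w

variable {F : Type} [Field F] [Fintype F] {W : Theory.{w} F}

namespace Theory

variable (h : W.PublishedTheorems)

include h

lemma resA_pull {X Y : FSch F} (f : X ⟶ Y) (a : W.H Y) :
    W.resA X (W.pullH f a) = W.pullH (barMap f) (W.resA Y a) := by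
  unfold resA
  rw [← coh_comp h, ← coh_comp h]
  congr 1
  rw [whiskerRight_fst]

lemma phiA_pull {X Y : FSch F} (f : X ⟶ Y) (a : W.H (SS.bar Y)) :
    W.phiA X (W.pullH (barMap f) a) = W.pullH (barMap f) (W.phiA Y a) := by
  unfold phiA
  rw [← coh_comp h, ← coh_comp h]
  congr 1
  rw [whisker_exchange]

lemma phiA_resA (X : FSch F) (a : W.H X) : W.phiA X (W.resA X a) = W.resA X a := by
  unfold phiA resA
  rw [← coh_comp h]
  congr 1
  rw [whiskerLeft_fst]

lemma cl_res (X : VarF F) (z : W.CH X.toVar) :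
    W.cl X.bar (W.resR X z) = W.resA X.1 (W.cl X.toVar z) :=
  cl_pull h (X := X.bar) (Y := X.toVar) (barProj X.1) z

lemma cl_phi (X : VarF F) (z : W.CH X.bar) :
    W.cl X.bar (W.phiR X z) = W.phiA X.1 (W.cl X.bar z) :=
  cl_pull h (X := X.bar) (Y := X.bar) (frobBar X.1) z

lemma coh_point_bar (n : ℕ) (hn : 0 < n) (a : W.H (SS.bar (point F)))
    (ha : a ∈ W.Hgr _ n) : a = 0 := by
  have h1 : W.pullH (λ_ (specBar F)).inv a = 0 :=
    coh_point h n hn _ (coh_mem h (λ_ (specBar F)).inv n a ha)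
  have h2 : W.pullH (λ_ (specBar F)).hom (W.pullH (λ_ (specBar F)).inv a) = a := by
    rw [← coh_comp h, Iso.hom_inv_id, coh_id h]
  rw [← h2, h1, map_zero]

lemma sec_fst_bar (X : FSch F) {C : FSch F} (t : point F ⟶ C) (a : W.H (SS.bar X)) :
    W.pullH (barMap (sec X t)) (W.pullH (barMap (pr₁ X C)) a) = a := by
  rw [← coh_comp h, ← comp_whiskerRight]
  simp only [sec, lift_fst, id_whiskerRight]
  exact coh_id h _ _

lemma sec_fst (X : FSch F) {C : FSch F} (t : point F ⟶ C) (a : W.H X) :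
    W.pullH (sec X t) (W.pullH (pr₁ X C) a) = a := by
  rw [← coh_comp h]
  simp only [sec, lift_fst]
  exact coh_id h _ _

lemma sec_snd_bar (X : FSch F) {C : FSch F} (t : point F ⟶ C) (n : ℕ) (hn : 0 < n)
    (c : W.H (SS.bar C)) (hcn : c ∈ W.Hgr _ n) :
    W.pullH (barMap (sec X t)) (W.pullH (barMap (pr₂ X C)) c) = 0 := by
  rw [← coh_comp h, ← comp_whiskerRight]
  simp only [sec, lift_snd, comp_whiskerRight]
  rw [coh_comp h, coh_point_bar h n hn _ (coh_mem h (barMap t) n c hcn), map_zero]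

/-- `H²(Spec F) = 0`. -/
lemma coh_point_two (a : W.H (point F)) (ha : a ∈ W.Hgr _ 2) : a = 0 := by
  have h0 : W.resA _ a = 0 := coh_point_bar h 2 (by norm_num) _ (coh_mem h _ 2 a ha)
  obtain ⟨b, rfl⟩ := (res_eq_zero h _ isVarF_point a).1 h0
  have key : ∀ b : W.H (SS.bar (point F)), pr (h.coh.internal (point F)) 2 (W.bd _ b) = 0 := by
    intro b
    refine induction_homogeneous (P := fun b =>
      pr (h.coh.internal (point F)) 2 (W.bd _ b) = 0) (h.coh.internal _) b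
      (by simp only [map_zero]) ?_ ?_
    · intro a b ha hb
      simp only [map_add, ha, hb, add_zero]
    · intro n c hcn
      rcases Nat.eq_zero_or_pos n with hn | hn
      · subst hn
        exact pr_of_mem_ne _ (by norm_num) (bd_mem h _ isVarF_point 0 c hcn)
      · rw [coh_point_bar h n hn c hcn, map_zero, map_zero]
  rw [← pr_of_mem (h.coh.internal _) ha, key]

lemma sec_snd (X : FSch F) {C : FSch F} (t : point F ⟶ C) (c : W.H C) (hc2 : c ∈ W.Hgr _ 2) :
    W.pullH (sec X t) (W.pullH (pr₂ X C) c) = 0 := by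
  rw [← coh_comp h]
  simp only [sec, lift_snd]
  rw [coh_comp h, coh_point_two h _ (coh_mem h t 2 c hc2), map_zero]

omit h in
variable (W) in
/-- The classes of degree 3 of `X̄` whose square is zero vanish. -/
def SquareInj (X : FSch F) : Prop := ∀ b ∈ W.Hgr (SS.bar X) 3, b ^ 2 = 0 → b = 0

/-- If the total Steenrod square of a class of degree 3 lies in odd degrees, its square
vanishes. -/
lemma sq_eq_zero_of_odd (X : FSch F) (b : W.H X) (hb : b ∈ W.Hgr X 3)
    (hSb : W.Sq X b ∈ ⨆ i : ℕ, W.Hgr X (2 * i + 1)) : b ^ 2 = 0 := by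
  have hint := h.coh.internal X
  obtain ⟨s, hs, hs0, hs3, hsum⟩ := sq_degree h X 3 b hb
  have hle : (⨆ i : ℕ, W.Hgr X (2 * i + 1)) ≤ LinearMap.ker (pr hint 6) :=
    iSup_le fun i u hu => pr_of_mem_ne hint (by omega) hu
  have h0 : pr hint 6 (W.Sq X b) = 0 := hle hSb
  rw [hsum, Finset.sum_range_succ, Finset.sum_range_succ, Finset.sum_range_succ,
    Finset.sum_range_one, map_add, map_add, map_add, pr_of_mem_ne hint (by norm_num) (hs 0),
    pr_of_mem_ne hint (by norm_num) (hs 1), pr_of_mem_ne hint (by norm_num) (hs 2),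
    pr_of_mem hint (hs 3), zero_add, zero_add, zero_add, hs3] at h0
  exact h0

/-- The Kunneth decomposition of the class of a cycle of codimension 2 on `X × C`. -/
lemma exists_decomposition (X C : VarF F) (hX : IsNice X.1) (hC : IsNice C.1)
    (hdim : HasDim C.1 1) (hP : W.SquareInj X.1) (w : W.H (SS.bar C.1))
    (hw : ∀ c ∈ W.Hgr (SS.bar C.1) 2, c = 0 ∨ c = w)
    (v : W.H (SS.bar (fprod X.1 C.1))) (hv : v ∈ W.Hgr _ 4)
    (hSv : W.Sq _ v ∈ ⨆ i : ℕ, W.Hgr (SS.bar (fprod X.1 C.1)) (2 * i)) :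
    ∃ e f : W.H (SS.bar X.1),
      v = W.pullH (barMap (pr₁ X.1 C.1)) e +
        W.pullH (barMap (pr₁ X.1 C.1)) f * W.pullH (barMap (pr₂ X.1 C.1)) w := by
  have hKb := kunneth_bijective h X.1 C.1 hX hC
  have hi1 := h.coh.internal (SS.bar X.1)
  have hi2 := h.coh.internal (SS.bar C.1)
  have hi3 := h.coh.internal (SS.bar (fprod X.1 C.1))
  refine kun_decomposition hKb hi2 (coh_curve h C.1 hC hdim) (coh_connected h C.1 hC) w hw v ?_
  intro lam hlam
  have hslant : ∀ n, ∀ u ∈ W.Hgr (SS.bar (fprod X.1 C.1)) (n + 1),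
      slant hKb lam u ∈ W.Hgr (SS.bar X.1) n := fun n u hu =>
    slant_mem hKb hi1 hi2 hi3 (coh_mul h _) (coh_mem h _) (coh_mem h _) lam hlam n u hu
  refine hP _ (hslant 3 v hv) (sq_eq_zero_of_odd h _ _ (hslant 3 v hv) ?_)
  rw [← slant_sq hKb lam (W.Sq _) (W.Sq _) (W.Sq _) (sq_pull h _) (sq_pull h _)
    (lam_sq hi2 lam hlam _ (sq_degree h _))]
  have hle : (⨆ i : ℕ, W.Hgr (SS.bar (fprod X.1 C.1)) (2 * i)) ≤
      (⨆ i : ℕ, W.Hgr (SS.bar X.1) (2 * i + 1)).comap (slant hKb lam) := by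
    refine iSup_le fun i => ?_
    rcases Nat.eq_zero_or_pos i with hi | hi
    · subst hi
      intro u hu
      rw [Submodule.mem_comap]
      have : slant hKb lam u = 0 := by
        have hsp := mem_span_homogeneous hKb hi1 hi2 hi3 (coh_mul h _) (coh_mem h _)
          (coh_mem h _) (2 * 0) u hu
        have hle0 : Submodule.span (ZMod 2) {w | ∃ i j a c, i + j = 2 * 0 ∧
            a ∈ W.Hgr (SS.bar X.1) i ∧ c ∈ W.Hgr (SS.bar C.1) j ∧
            w = W.pullH (barMap (pr₁ X.1 C.1)) a * W.pullH (barMap (pr₂ X.1 C.1)) c} ≤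
            LinearMap.ker (slant hKb lam) := by
          rw [Submodule.span_le]
          rintro _ ⟨i, j, a, c, hij, ha, hc', rfl⟩
          rw [SetLike.mem_coe, LinearMap.mem_ker, slant_apply,
            hlam j (by omega) c hc', zero_smul]
        exact hle0 hsp
      rw [this]
      exact Submodule.zero_mem _
    · intro u hu
      rw [Submodule.mem_comap]
      obtain ⟨j, rfl⟩ : ∃ j, i = j + 1 := ⟨i - 1, by omega⟩
      have := hslant (2 * j + 1) u hu
      exact Submodule.mem_iSup_of_mem j this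
  exact hle hSv

/-- The cycle classes of the differences `Z_{t₁} - Z_{t₀}` for curves vanish. -/
theorem cl_curveDifference (X : VarF F) (hX : IsNice X.1) (hP : W.SquareInj X.1)
    (z : W.CH X.toVar) (hz : W.IsCurveDifference X z) : W.cl X.toVar z = 0 := by
  obtain ⟨C, t₀, t₁, Z, hC, hdim, hZ, rfl⟩ := hz
  obtain ⟨p₀, hp₀, hw⟩ := coh_curve_top h C hC hdim ⟨t₀⟩
  have hXCv : IsVarF (fprod X.1 C.1) := isVarF_prod X.2 C.2
  set XC : VarF F := ⟨fprod X.1 C.1, hXCv⟩ with hXC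
  let v : W.H (fprod X.1 C.1) := W.cl (X.prod C.toVar) Z
  have hv : v ∈ W.Hgr _ 4 := cl_mem h (X.prod C.toVar) 2 Z hZ
  have hvbar : W.resA (fprod X.1 C.1) v = W.cl XC.bar (W.resR XC Z) := (cl_res h XC Z).symm
  have hSv : W.Sq _ (W.resA (fprod X.1 C.1) v) ∈
      ⨆ i : ℕ, W.Hgr (SS.bar (fprod X.1 C.1)) (2 * i) := by
    rw [hvbar]
    exact sq_cycle h XC.bar (snd XC.1 (specBar F) ≫ 𝟙 _)
      (isVarBar_prod XC.2 isVarBar_specBar) _
      (ch_mem h (X := XC.bar) (Y := XC.toVar) (barProj XC.1) 2 Z hZ)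
  obtain ⟨e, f, hef⟩ := exists_decomposition h X C hX hC hdim hP
    (W.resA C.1 (W.cl C.toVar p₀)) hw (W.resA (fprod X.1 C.1) v) (coh_mem h _ 4 v hv) hSv
  set w₀ : W.H C.1 := W.cl C.toVar p₀ with hw₀
  have hw₀mem : w₀ ∈ W.Hgr C.1 2 := cl_mem h C.toVar 1 p₀ hp₀
  have hw₀bar : W.resA C.1 w₀ ∈ W.Hgr _ 2 := coh_mem h _ 2 w₀ hw₀mem
  -- the class `e` is the restriction of `E = t₀^* v`
  have hE : ∀ t : point F ⟶ C.1, W.resA X.1 (W.pullH (sec X.1 t) v) = e := by
    intro t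
    rw [resA_pull h, hef, map_add, map_mul, sec_fst_bar h,
      sec_snd_bar h X.1 t 2 (by norm_num) _ hw₀bar, mul_zero, add_zero]
  set E : W.H X.1 := W.pullH (sec X.1 t₀) v with hEdef
  -- the class `f` can be taken to be a restriction
  have hfr : ∃ g : W.H X.1, W.resA (fprod X.1 C.1) v =
      W.resA (fprod X.1 C.1) (W.pullH (pr₁ X.1 C.1) E +
        W.pullH (pr₁ X.1 C.1) g * W.pullH (pr₂ X.1 C.1) w₀) := by
    by_cases hw0 : W.resA C.1 w₀ = 0
    · refine ⟨0, ?_⟩
      rw [hef, hw0, map_zero, mul_zero, add_zero, map_zero, zero_mul, add_zero, resA_pull h,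
        hE t₀]
    · have hinv := phiA_resA h (fprod X.1 C.1) v
      rw [hef, map_add, map_mul, phiA_pull h, phiA_pull h, phiA_pull h, phiA_resA h C.1,
        ← hE t₀, phiA_resA h X.1] at hinv
      have hsub : W.pullH (barMap (pr₁ X.1 C.1)) (W.phiA X.1 f - f) *
          W.pullH (barMap (pr₂ X.1 C.1)) (W.resA C.1 w₀) = 0 := by
        rw [map_sub, sub_mul, sub_eq_zero]
        exact add_left_cancel hinv
      have hff := kun_injective (kunneth_bijective h X.1 C.1 hX hC) _ hw0 _ hsub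
      obtain ⟨g, hg⟩ := (range_res h X.1 X.2 f).2 (sub_eq_zero.1 hff)
      refine ⟨g, ?_⟩
      rw [map_add, map_mul, resA_pull h (pr₁ X.1 C.1), resA_pull h (pr₁ X.1 C.1),
        resA_pull h (pr₂ X.1 C.1), hE t₀, ← hg, hef]
  obtain ⟨g, hg⟩ := hfr
  set v₀ : W.H (fprod X.1 C.1) := W.pullH (pr₁ X.1 C.1) E +
    W.pullH (pr₁ X.1 C.1) g * W.pullH (pr₂ X.1 C.1) w₀ with hv₀
  obtain ⟨β, hβ⟩ := (res_eq_zero h (fprod X.1 C.1) hXCv (v - v₀)).1 (by
    rw [map_sub, hg, sub_self])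
  have hval : ∀ t : point F ⟶ C.1, W.pullH (sec X.1 t) v =
      E + W.bd X.1 (W.pullH (barMap (sec X.1 t)) β) := by
    intro t
    have h1 : v = v₀ + W.bd _ β := by rw [← hβ]; abel
    rw [h1, map_add, hv₀, map_add, map_mul, sec_fst h, sec_snd h X.1 t w₀ hw₀mem,
      mul_zero, add_zero, bd_pull h X.1 (fprod X.1 C.1) X.2 hXCv]
  have hpts : W.pullH (barMap (sec X.1 t₀)) β = W.pullH (barMap (sec X.1 t₁)) β :=
    kun_points (kunneth_bijective h X.1 C.1 hX hC) (h.coh.internal _) (coh_connected h C.1 hC)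
      _ _ (sec_fst_bar h X.1 t₀) (sec_fst_bar h X.1 t₁)
      (fun n hn c hcn => sec_snd_bar h X.1 t₀ n hn c hcn)
      (fun n hn c hcn => sec_snd_bar h X.1 t₁ n hn c hcn) β
  have e1 : W.cl X.toVar (W.fibre X C t₁ Z) = W.pullH (sec X.1 t₁) v :=
    cl_pull h (X := X.toVar) (Y := X.prod C.toVar) (sec X.1 t₁) Z
  have e0 : W.cl X.toVar (W.fibre X C t₀ Z) = W.pullH (sec X.1 t₀) v :=
    cl_pull h (X := X.toVar) (Y := X.prod C.toVar) (sec X.1 t₀) Z
  rw [map_sub, e1, e0, hval t₁, hval t₀, hpts]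
  exact sub_self _

/-- The cycle class vanishes on `CH²(X)_{F-alg}`. -/
theorem cl_fAlg (X : VarF F) (hX : IsNice X.1) (hP : W.SquareInj X.1) (z : W.CH X.toVar)
    (hz : z ∈ W.FAlg X) : W.cl X.toVar z = 0 := by
  have h1 : AddSubgroup.closure {w | W.IsCurveDifference X w} ≤
      (W.cl X.toVar).toAddMonoidHom.ker := by
    rw [AddSubgroup.closure_le]
    intro w hw
    exact cl_curveDifference h X hX hP w hw
  have h2 : W.FAlg X ≤ (W.cl X.toVar).toAddMonoidHom.ker := by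
    unfold FAlg
    rw [AddSubgroup.closure_le]
    intro w hw
    exact h1 (h.curvesSuffice X hX w hw)
  exact h2 hz

end Theory

end Pool.Agent.helper29.SS
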