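import Mathlib

/-!
# Algebraic equivalence of codimension-2 cycles over finite fields: definitions

Varieties over a finite field `F` and over its algebraic closure, the data of Chow rings and of
etale cohomology with coefficients `Z/2` on them, the two subgroups of `CH²` of the question of
Scavia and Suzuki, and the published theorems on these data which the hand-in uses.
-/

namespace Pool.Agent.helper29.SS

open CategoryTheory Limits AlgebraicGeometry MonoidalCategory CartesianMonoidalCategory

universe w

/-! ### Varieties -/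

section Varieties

variable (F : Type) [Field F]

/-- Schemes over the field `F`. -/
abbrev FSch : Type 1 := Over (Spec (CommRingCat.of F))

/-- The spectrum of `F`, as a scheme over `F`. -/
noncomputable abbrev point : FSch F := 𝟙_ (FSch F)

/-- The spectrum of an algebraic closure of `F`, as a scheme over `F`. -/
noncomputable def specBar : FSch F :=
  Over.mk (Spec.map (CommRingCat.ofHom (algebraMap F (AlgebraicClosure F))))

variable {F}

/-- The fibre product `X ×_F Y`. -/
noncomputable abbrev fprod (X Y : FSch F) : FSch F := X ⊗ Y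

/-- The projection `X ×_F Y → X`. -/
noncomputable abbrev pr₁ (X Y : FSch F) : fprod X Y ⟶ X := fst X Y

/-- The projection `X ×_F Y → Y`. -/
noncomputable abbrev pr₂ (X Y : FSch F) : fprod X Y ⟶ Y := snd X Y

/-- The base change `X̄ = X ×_F F̄` to the algebraic closure `F̄` of `F`. -/
noncomputable abbrev bar (X : FSch F) : FSch F := fprod X (specBar F)

/-- The projection `X̄ → X`. -/
noncomputable abbrev barProj (X : FSch F) : bar X ⟶ X := pr₁ X (specBar F)

/-- The base change `f × 1 : X̄ → Ȳ` of a morphism. -/
noncomputable abbrev barMap {X Y : FSch F} (f : X ⟶ Y) : bar X ⟶ bar Y := f ▷ specBar F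

/-- The morphism `X → X × T` given by a point `t ∈ T(F)`. -/
noncomputable abbrev sec (X : FSch F) {T : FSch F} (t : point F ⟶ T) : X ⟶ fprod X T :=
  lift (𝟙 X) (toUnit X ≫ t)

/-- The morphism `X̄ → X × T` given by a point `t : Spec F̄ → T`. -/
noncomputable abbrev secBar (X : FSch F) {T : FSch F} (t : specBar F ⟶ T) :
    bar X ⟶ fprod X T :=
  X ◁ t

/-- The `F`-automorphism of the spectrum of the algebraic closure given by the Frobenius
`x ↦ x ^ q`, `q` the number of elements of `F`. -/
noncomputable def frob (F : Type) [Field F] [Fintype F] : specBar F ⟶ specBar F :=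
  Over.homMk (Spec.map (CommRingCat.ofHom
    (FiniteField.frobeniusAlgHom F (AlgebraicClosure F)).toRingHom)) (by
      simp only [specBar, Over.mk_hom, ← Spec.map_comp, ← CommRingCat.ofHom_comp]
      congr 2
      ext x
      simp)

/-- The Frobenius `1 × frob` of `X̄ = X ×_F F̄`. -/
noncomputable abbrev frobBar [Fintype F] (X : FSch F) : bar X ⟶ bar X := X ◁ frob F

/-- The morphism `s` is smooth, separated and of finite type. -/
structure IsSmoothSep {Y S : Scheme} (s : Y ⟶ S) : Prop where
  smooth : Smooth s
  separated : IsSeparated s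
  quasiCompact : QuasiCompact s

/-- `X` is a smooth variety over `F`. -/
def IsVarF (X : FSch F) : Prop := IsSmoothSep X.hom

/-- The structure morphism `s` makes `T` a smooth variety over the algebraic closure of `F`. -/
def IsVarBar (T : FSch F) (s : T ⟶ specBar F) : Prop := IsSmoothSep s.left

/-- `X` is a smooth variety over `F`, or it is a smooth variety over the algebraic closure of
`F`, regarded as a scheme over `F`. -/
def IsVar (X : FSch F) : Prop := IsVarF X ∨ ∃ s : X ⟶ specBar F, IsVarBar X s

/-- The homogeneous polynomials of degree `i` in `n + 1` variables over `F`. -/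
def homPoly (F : Type) [Field F] (n i : ℕ) : Submodule F (MvPolynomial (Fin (n + 1)) F) :=
  MvPolynomial.homogeneousSubmodule (Fin (n + 1)) F i

/-- The grading of the polynomial ring. -/
noncomputable instance homPoly.graded (F : Type) [Field F] (n : ℕ) :
    GradedAlgebra (homPoly F n) :=
  MvPolynomial.gradedAlgebra

/-- The scheme `Proj F[x₀, ..., xₙ]`. -/
noncomputable def projScheme (F : Type) [Field F] (n : ℕ) : Scheme := Proj (homPoly F n)

/-- The ring structure on the homogeneous polynomials of degree zero. -/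
noncomputable instance homPoly.zeroCommRing (F : Type) [Field F] (n : ℕ) :
    CommRing (homPoly F n 0) := inferInstance

/-- The homogeneous polynomials of degree zero form an algebra over `F`. -/
noncomputable instance homPoly.zeroAlgebra (F : Type) [Field F] (n : ℕ) :
    Algebra F (homPoly F n 0) := inferInstance

/-- The ring of homogeneous polynomials of degree zero. -/
noncomputable def zeroRing (F : Type) [Field F] (n : ℕ) : CommRingCat :=
  CommRingCat.of (homPoly F n 0)

/-- The constants are homogeneous polynomials of degree zero. -/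
noncomputable def constMap (F : Type) [Field F] (n : ℕ) : CommRingCat.of F ⟶ zeroRing F n :=
  CommRingCat.ofHom (algebraMap F (homPoly F n 0))

/-- The morphism from `Proj` to the spectrum of the ring of elements of degree zero. -/
noncomputable def projZero (F : Type) [Field F] (n : ℕ) : projScheme F n ⟶ Spec (zeroRing F n) :=
  Proj.toSpecZero (homPoly F n)

/-- Projective space of dimension `n` over `F`. -/
noncomputable def projSpace (F : Type) [Field F] (n : ℕ) : FSch F :=
  Over.mk (projZero F n ≫ Spec.map (constMap F n))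

/-- `X` is a closed subscheme of a projective space over `F`. -/
def IsProjective (X : FSch F) : Prop :=
  ∃ (n : ℕ) (i : X ⟶ projSpace F n), IsClosedImmersion i.left

/-- `X` is a smooth projective geometrically connected variety over `F`. -/
structure IsNice (X : FSch F) : Prop where
  smooth : IsVarF X
  projective : IsProjective X
  connected : GeometricallyConnected X.hom

/-- The dimension of `X` is `d`. -/
def HasDim (X : FSch F) (d : ℕ) : Prop := topologicalKrullDim X.left = d

lemma IsSmoothSep.comp {Y Z S : Scheme} {f : Y ⟶ Z} {s : Z ⟶ S} (hf : IsSmoothSep f)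
    (hs : IsSmoothSep s) : IsSmoothSep (f ≫ s) := by
  have := hf.smooth
  have := hf.separated
  have := hf.quasiCompact
  have := hs.smooth
  have := hs.separated
  have := hs.quasiCompact
  exact ⟨inferInstance, inferInstance, inferInstance⟩

lemma IsSmoothSep.snd {X Y : FSch F} (h : IsVarF X) : IsSmoothSep (snd X Y).left := by
  have := h.smooth
  have := h.separated
  have := h.quasiCompact
  rw [Over.snd_left]
  exact ⟨inferInstance, inferInstance, inferInstance⟩

lemma isVarF_prod {X Y : FSch F} (hX : IsVarF X) (hY : IsVarF Y) : IsVarF (fprod X Y) := by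
  have h : (X ⊗ Y).hom = (snd X Y).left ≫ Y.hom := (Over.w (snd X Y)).symm
  unfold IsVarF
  rw [h]
  exact (IsSmoothSep.snd hX).comp hY

lemma isVarBar_prod {X T : FSch F} {s : T ⟶ specBar F} (hX : IsVarF X) (hT : IsVarBar T s) :
    IsVarBar (fprod X T) (snd X T ≫ s) := by
  unfold IsVarBar
  rw [Over.comp_left]
  exact (IsSmoothSep.snd hX).comp hT

lemma isVarBar_specBar : IsVarBar (specBar F) (𝟙 _) :=
  ⟨inferInstanceAs (Smooth (𝟙 _)), inferInstanceAs (IsSeparated (𝟙 _)),
    inferInstanceAs (QuasiCompact (𝟙 _))⟩

lemma isVarF_point : IsVarF (point F) :=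
  ⟨inferInstanceAs (Smooth (𝟙 _)), inferInstanceAs (IsSeparated (𝟙 _)),
    inferInstanceAs (QuasiCompact (𝟙 _))⟩

lemma isVar_prod {X T : FSch F} (hX : IsVarF X) (hT : IsVar T) : IsVar (fprod X T) :=
  hT.elim (fun h => Or.inl (isVarF_prod hX h)) fun ⟨_, h⟩ => Or.inr ⟨_, isVarBar_prod hX h⟩

lemma isVar_specBar : IsVar (specBar F) := Or.inr ⟨𝟙 _, isVarBar_specBar⟩

variable (F)

/-- The smooth varieties over `F`. -/
abbrev VarF : Type 1 := Subtype (IsVarF (F := F))

/-- The smooth varieties over `F` and over its algebraic closure. -/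
abbrev Var : Type 1 := Subtype (IsVar (F := F))

variable {F}

/-- A smooth variety over `F` as a member of `Var F`. -/
def VarF.toVar (X : VarF F) : Var F := ⟨X.1, Or.inl X.2⟩

/-- The fibre product over `F`. When `T` is a variety over the algebraic closure `F̄` of `F`,
this is the product over `F̄` of `T` and the base change of `X`. -/
noncomputable def VarF.prod (X : VarF F) (T : Var F) : Var F :=
  ⟨fprod X.1 T.1, isVar_prod X.2 T.2⟩

/-- The base change of `X` to the algebraic closure of `F`. -/
noncomputable def VarF.bar (X : VarF F) : Var F := ⟨SS.bar X.1, isVar_prod X.2 isVar_specBar⟩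

end Varieties

/-! ### The data -/

/-- The data of Chow rings and of etale cohomology rings with coefficients in `Z/2`, for
the varieties over `F` and over its algebraic closure. Only data; the properties which are used
are listed in `PublishedTheorems` below. -/
structure Theory (F : Type) [Field F] where
  /-- the Chow ring `CH(X)` modulo rational equivalence, integral coefficients -/
  CH : Var F → Type w
  /-- the ring structure of `CH(X)` -/
  [ringCH : ∀ X, CommRing (CH X)]
  /-- the classes of cycles of codimension `i` -/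
  CHgr : ∀ X, ℕ → AddSubgroup (CH X)
  /-- pullback (Gysin homomorphisms for morphisms of smooth varieties, and flat pullback for
  the extension of the ground field) -/
  pull : ∀ {X Y : Var F}, (X.1 ⟶ Y.1) → CH Y →+* CH X
  /-- the etale cohomology ring `H(X, Z/2)`, the sum of all degrees; the characteristic of `F`
  is not 2, so that `μ₂ = Z/2` and all Tate twists `Z/2(i)` are `Z/2` -/
  H : FSch F → Type w
  /-- the ring structure of `H(X)` -/
  [ringH : ∀ X, CommRing (H X)]
  /-- `H(X)` is an algebra over `Z/2` -/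
  [algH : ∀ X, Algebra (ZMod 2) (H X)]
  /-- the cohomology group of degree `i` -/
  Hgr : ∀ X, ℕ → Submodule (ZMod 2) (H X)
  /-- pullback in cohomology -/
  pullH : ∀ {X Y : FSch F}, (X ⟶ Y) → H Y →ₐ[ZMod 2] H X
  /-- the cycle class map modulo 2 -/
  cl : ∀ X : Var F, CH X →+* H X.1
  /-- the total Steenrod square -/
  Sq : ∀ X : FSch F, H X →+* H X
  /-- the Kummer map `H¹(X, μ₂) → Pic(X)[2]`, extended by zero to the other degrees -/
  kum : ∀ X : Var F, H X.1 →+ CH X
  /-- the boundary map `Hⁱ(X ×_F F̄) → Hⁱ⁺¹(X)` of the Hochschild-Serre spectral sequence -/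
  bd : ∀ X : FSch F, H (bar X) →+ H X

attribute [instance] Theory.ringCH Theory.ringH Theory.algH

namespace Theory

variable {F : Type} [Field F] (W : Theory.{w} F)

/-- `a` is a cohomology class of degree `n`. -/
abbrev InDeg {X : FSch F} (n : ℕ) (a : W.H X) : Prop := a ∈ W.Hgr X n

/-- `z` is a class of cycles of codimension `i`. -/
abbrev InCodim {X : Var F} (i : ℕ) (z : W.CH X) : Prop := z ∈ W.CHgr X i

/-- The pullback `f^* a` in cohomology. -/
abbrev pbH {X Y : FSch F} (f : X ⟶ Y) (a : W.H Y) : W.H X := W.pullH f a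

/-- The pullback `f^* z` of cycle classes. -/
abbrev pbC (X Y : Var F) (f : X.1 ⟶ Y.1) (z : W.CH Y) : W.CH X := W.pull f z

/-- The class in `H(X)` of a cycle class `z`. -/
abbrev clH (X : Var F) (z : W.CH X) : W.H X.1 := W.cl X z

/-- The total Steenrod square of `a`. -/
abbrev sqH {X : FSch F} (a : W.H X) : W.H X := W.Sq X a

/-- The image of `a` under the Kummer map. -/
abbrev kumC (X : Var F) (a : W.H X.1) : W.CH X := W.kum X a

/-- The image in `H(X)` of `a ∈ H(X̄)` under the boundary map. -/
noncomputable abbrev bdH (X : FSch F) (a : W.H (bar X)) : W.H X := W.bd X a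

/-- The restriction to `X̄` of a cohomology class. -/
noncomputable abbrev resH (X : FSch F) (a : W.H X) : W.H (bar X) := W.pullH (barProj X) a

/-- The Frobenius action on `H(X̄)`. -/
noncomputable abbrev phiH [Fintype F] (X : FSch F) (a : W.H (bar X)) : W.H (bar X) :=
  W.pullH (frobBar X) a

/-- The restriction to `X̄` of a cycle class. -/
noncomputable abbrev resC (X : VarF F) (z : W.CH X.toVar) : W.CH X.bar :=
  W.pull (X := X.bar) (Y := X.toVar) (barProj X.1) z

/-- The Frobenius action on `CH(X̄)`. -/
noncomputable abbrev phiC [Fintype F] (X : VarF F) (z : W.CH X.bar) : W.CH X.bar :=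
  W.pull (X := X.bar) (Y := X.bar) (frobBar X.1) z

/-- The fibre `Z_t` of a cycle `Z` on `X × T`, for `t ∈ T(F)`. -/
noncomputable abbrev fibre (X T : VarF F) (t : point F ⟶ T.1) (Z : W.CH (X.prod T.toVar)) :
    W.CH X.toVar :=
  W.pull (X := X.toVar) (Y := X.prod T.toVar) (sec X.1 t) Z

/-- The fibre `Z_t` on `X̄` of a cycle `Z` on `X × T`, for a morphism `t : Spec F̄ → T`. -/
noncomputable abbrev fibreBar (X : VarF F) (T : Var F) (t : specBar F ⟶ T.1)
    (Z : W.CH (X.prod T)) : W.CH X.bar :=
  W.pull (X := X.bar) (Y := X.prod T) (secBar X.1 t) Z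

/-! ### The two subgroups -/

/-- The classes `Z_{t₁} - Z_{t₀}`, where `Z` is a cycle of codimension 2 on `X × T`, `T` is a
smooth connected variety over `F` and `t₀, t₁` are points of `T(F)`. -/
def IsDifference (X : VarF F) (z : W.CH X.toVar) : Prop :=
  ∃ (T : VarF F) (t₀ t₁ : point F ⟶ T.1) (Z : W.CH (X.prod T.toVar)),
    ConnectedSpace T.1.left ∧ W.InCodim 2 Z ∧ z = W.fibre X T t₁ Z - W.fibre X T t₀ Z

/-- The group `CH²(X)_{F-alg}` of classes algebraically equivalent to zero over `F`. -/
def FAlg (X : VarF F) : AddSubgroup (W.CH X.toVar) :=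
  AddSubgroup.closure {z | W.IsDifference X z}

/-- The classes `Z_{t₁} - Z_{t₀}` on `X̄ = X ×_F F̄`, where `Z` is a cycle of codimension 2 on
`X̄ ×_F̄ T = X ×_F T`, `T` is a smooth connected variety over the algebraic closure `F̄` and
`t₀, t₁` are points of `T(F̄)`. -/
def IsDifferenceBar (X : VarF F) (z : W.CH X.bar) : Prop :=
  ∃ (T : Var F) (s : T.1 ⟶ specBar F) (t₀ t₁ : specBar F ⟶ T.1) (Z : W.CH (X.prod T)),
    IsVarBar T.1 s ∧ ConnectedSpace T.1.left ∧ t₀ ≫ s = 𝟙 _ ∧ t₁ ≫ s = 𝟙 _ ∧
    W.InCodim 2 Z ∧ z = W.fibreBar X T t₁ Z - W.fibreBar X T t₀ Z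

/-- The group of classes in `CH(X̄)` algebraically equivalent to zero over `F̄`, in
codimension 2. -/
noncomputable def AlgBar (X : VarF F) : AddSubgroup (W.CH X.bar) :=
  AddSubgroup.closure {z | W.IsDifferenceBar X z}

/-- The restriction `CH(X) → CH(X̄)` as a homomorphism of groups. -/
noncomputable def resHom (X : VarF F) : W.CH X.toVar →+ W.CH X.bar :=
  (W.pull (X := X.bar) (Y := X.toVar) (barProj X.1)).toAddMonoidHom

/-- The group `CH²(X)_alg` of classes in `CH²(X)` whose image in `CH²(X̄)` is algebraically
equivalent to zero over `F̄`. -/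
noncomputable def Alg (X : VarF F) : AddSubgroup (W.CH X.toVar) :=
  W.CHgr X.toVar 2 ⊓ (W.AlgBar X).comap (W.resHom X)

/-- The classes `Z_{t₁} - Z_{t₀}` as above for which `T` is a smooth projective geometrically
connected curve. -/
def IsCurveDifference (X : VarF F) (z : W.CH X.toVar) : Prop :=
  ∃ (C : VarF F) (t₀ t₁ : point F ⟶ C.1) (Z : W.CH (X.prod C.toVar)),
    IsNice C.1 ∧ HasDim C.1 1 ∧ W.InCodim 2 Z ∧ z = W.fibre X C t₁ Z - W.fibre X C t₀ Z

/-! ### The published theorems

The characteristic of the finite field `F` is not 2. -/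

/-- The Chow rings are graded and contravariant. -/
structure IsChow : Prop where
  mul : ∀ (X : Var F) (i j : ℕ) (a b : W.CH X), W.InCodim i a → W.InCodim j b →
    W.InCodim (i + j) (a * b)
  mem : ∀ (X Y : Var F) (f : X.1 ⟶ Y.1) (i : ℕ) (a : W.CH Y), W.InCodim i a →
    W.InCodim i (W.pbC X Y f a)
  id : ∀ (X : Var F) (a : W.CH X), W.pbC X X (𝟙 X.1) a = a
  comp : ∀ (X Y Z : Var F) (f : X.1 ⟶ Y.1) (g : Y.1 ⟶ Z.1) (a : W.CH Z),
    W.pbC X Z (f ≫ g) a = W.pbC X Y f (W.pbC Y Z g a)

/-- The etale cohomology rings are graded and contravariant. -/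
structure IsCoh : Prop where
  internal : ∀ X, DirectSum.IsInternal (W.Hgr X)
  one : ∀ X, W.InDeg 0 (1 : W.H X)
  mul : ∀ (X : FSch F) (i j : ℕ) (a b : W.H X), W.InDeg i a → W.InDeg j b →
    W.InDeg (i + j) (a * b)
  mem : ∀ (X Y : FSch F) (f : X ⟶ Y) (i : ℕ) (a : W.H Y), W.InDeg i a →
    W.InDeg i (W.pbH f a)
  id : ∀ (X : FSch F) (a : W.H X), W.pbH (𝟙 X) a = a
  comp : ∀ (X Y Z : FSch F) (f : X ⟶ Y) (g : Y ⟶ Z) (a : W.H Z),
    W.pbH (f ≫ g) a = W.pbH f (W.pbH g a)

/-- The cycle class map is a natural homomorphism of rings which doubles the degree. -/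
structure IsCycleMap : Prop where
  mem : ∀ (X : Var F) (i : ℕ) (a : W.CH X), W.InCodim i a → W.InDeg (2 * i) (W.clH X a)
  pull : ∀ (X Y : Var F) (f : X.1 ⟶ Y.1) (a : W.CH Y),
    W.clH X (W.pbC X Y f a) = W.pbH f (W.clH Y a)

/-- `s` is the sequence of the Steenrod squares `Sqⁱ a` of a class `a` of degree `n`:
`Sq a = Sq⁰ a + ... + Sqⁿ a` with `Sq⁰ a = a` and `Sqⁿ a = a²`. -/
structure IsSquares {X : FSch F} (n : ℕ) (a : W.H X) (s : ℕ → W.H X) : Prop where
  mem : ∀ i, W.InDeg (n + i) (s i)
  zero : s 0 = a
  top : s n = a * a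
  sum : W.sqH a = ∑ i ∈ Finset.range (n + 1), s i

/-- `a` is a sum of classes of even degrees. -/
def IsEven {X : FSch F} (a : W.H X) : Prop := a ∈ ⨆ i : ℕ, W.Hgr X (2 * i)

/-- The Steenrod squares. (The Cartan formula says that the total square is a homomorphism of
rings.) The odd Steenrod squares vanish on the classes of cycles of codimension 2 on smooth
varieties over the algebraic closure of `F`. -/
structure IsSteenrod : Prop where
  pull : ∀ (X Y : FSch F) (f : X ⟶ Y) (a : W.H Y), W.sqH (W.pbH f a) = W.pbH f (W.sqH a)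
  degree : ∀ (X : FSch F) (n : ℕ) (a : W.H X), W.InDeg n a → ∃ s : ℕ → W.H X, W.IsSquares n a s
  cycle : ∀ (T : Var F) (s : T.1 ⟶ specBar F), IsVarBar T.1 s → ∀ z : W.CH T, W.InCodim 2 z →
    W.IsEven (W.sqH (W.clH T z))

/-- The exact sequences `0 → Hⁱ⁻¹(X̄)/(φ - 1) → Hⁱ(X) → Hⁱ(X̄)^φ → 0` for the smooth varieties
over the finite field `F`, where `φ` is the Frobenius; they are natural and linear over `H(X)`. -/
structure IsHochschildSerre [Fintype F] : Prop where
  mem : ∀ X : FSch F, IsVarF X → ∀ (i : ℕ) (a : W.H (bar X)), W.InDeg i a →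
    W.InDeg (i + 1) (W.bdH X a)
  pull : ∀ X Y : FSch F, IsVarF X → IsVarF Y → ∀ (f : X ⟶ Y) (a : W.H (bar Y)),
    W.bdH X (W.pbH (barMap f) a) = W.pbH f (W.bdH Y a)
  mul : ∀ X : FSch F, IsVarF X → ∀ (a : W.H (bar X)) (b : W.H X),
    W.bdH X (a * W.resH X b) = W.bdH X a * b
  bd_eq_zero : ∀ X : FSch F, IsVarF X → ∀ a : W.H (bar X),
    W.bdH X a = 0 ↔ ∃ b, a = W.phiH X b - b
  res_eq_zero : ∀ X : FSch F, IsVarF X → ∀ a : W.H X, W.resH X a = 0 ↔ ∃ b, a = W.bdH X b
  range_res : ∀ X : FSch F, IsVarF X → ∀ a : W.H (bar X),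
    (∃ b, a = W.resH X b) ↔ W.phiH X a = a

/-- The tensor product `H(X̄) ⊗ H(Ȳ)` over `Z/2`. -/
def Tens (X Y : FSch F) : Type w := TensorProduct (ZMod 2) (W.H (bar X)) (W.H (bar Y))

noncomputable instance Tens.commRing (X Y : FSch F) : CommRing (W.Tens X Y) :=
  Algebra.TensorProduct.instCommRing

noncomputable instance Tens.algebra (X Y : FSch F) : Algebra (ZMod 2) (W.Tens X Y) :=
  Algebra.TensorProduct.leftAlgebra

/-- The exterior product `H(X̄) ⊗ H(Ȳ) → H(X̄ × Ȳ)`. -/
noncomputable def kunMap (X Y : FSch F) : W.Tens X Y →ₐ[ZMod 2] W.H (bar (fprod X Y)) :=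
  Algebra.TensorProduct.productMap (W.pullH (barMap (pr₁ X Y))) (W.pullH (barMap (pr₂ X Y)))

/-- The Kunneth formula for smooth projective varieties over the algebraic closure of `F`. -/
def Kunneth : Prop :=
  ∀ X Y : FSch F, IsNice X → IsNice Y → Function.Bijective (W.kunMap X Y)

/-- The cohomology of the point and of curves over the algebraic closure of `F`. -/
structure IsCurveCohomology : Prop where
  point : ∀ n : ℕ, 0 < n → ∀ a : W.H (specBar F), W.InDeg n a → a = 0
  connected : ∀ X : FSch F, IsNice X → ∀ a : W.H (bar X), W.InDeg 0 a → a = 0 ∨ a = 1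
  curve : ∀ C : FSch F, IsNice C → HasDim C 1 → ∀ n : ℕ, 2 < n → ∀ a : W.H (bar C),
    W.InDeg n a → a = 0
  top : ∀ C : VarF F, IsNice C.1 → HasDim C.1 1 → Nonempty (SS.point F ⟶ C.1) →
    ∃ p : W.CH C.toVar, W.InCodim 1 p ∧ ∀ a : W.H (bar C.1), W.InDeg 2 a →
      a = 0 ∨ a = W.resH C.1 (W.clH C.toVar p)

/-- The Kummer sequence and `Br F = 0`. The line bundle attached to `a ∈ H¹(X, μ₂)` has order
dividing 2, and on varieties over the algebraic closure of `F` its class is the Bockstein
`Sq¹ a = a²`. If `X` is smooth, projective and geometrically connected over the finite field `F`,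
the line bundles on `X` are the line bundles on `X̄` invariant under the Frobenius `φ`, and if `D`
is a line bundle on `X` and `D = 2 M` on `X̄`, then the class of `D` is the boundary of the class
in `H¹(X̄, μ₂)` of the line bundle `φ M - M` of order 2. -/
structure IsKummer [Fintype F] : Prop where
  mem : ∀ (X : Var F) (a : W.H X.1), W.InDeg 1 a → W.InCodim 1 (W.kumC X a)
  two : ∀ (X : Var F) (a : W.H X.1), W.InDeg 1 a → W.kumC X a + W.kumC X a = 0
  pull : ∀ (X Y : Var F) (f : X.1 ⟶ Y.1) (a : W.H Y.1), W.InDeg 1 a →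
    W.kumC X (W.pbH f a) = W.pbC X Y f (W.kumC Y a)
  cl : ∀ (T : Var F) (s : T.1 ⟶ specBar F), IsVarBar T.1 s → ∀ a : W.H T.1, W.InDeg 1 a →
    W.clH T (W.kumC T a) = a * a
  descent : ∀ X : VarF F, IsNice X.1 → ∀ L : W.CH X.bar, W.InCodim 1 L → W.phiC X L = L →
    ∃ D : W.CH X.toVar, W.InCodim 1 D ∧ W.resC X D = L
  boundary : ∀ X : VarF F, IsNice X.1 → ∀ (D : W.CH X.toVar) (M : W.CH X.bar)
    (a : W.H (SS.bar X.1)), W.InCodim 1 D → W.InCodim 1 M → W.InDeg 1 a →
    W.resC X D = M + M → W.phiC X M = M + W.kumC X.bar a → W.clH X.toVar D = W.bdH X.1 a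

/-- Algebraic equivalence over `F` can be tested with smooth projective curves (Weil,
Achter-Casalaina-Martin-Vial). -/
def CurvesSuffice : Prop :=
  ∀ X : VarF F, IsNice X.1 → ∀ z : W.CH X.toVar, W.IsDifference X z →
    z ∈ AddSubgroup.closure {w | W.IsCurveDifference X w}

/-- The monomials `xⁱ yʲ mᵏ` with `i + j + 2 k = n`. -/
def monomials {R : Type*} [CommRing R] (x y m : R) (n : ℕ) :
    {e : ℕ × ℕ × ℕ // e.1 + e.2.1 + 2 * e.2.2 = n} → R :=
  fun e => x ^ e.1.1 * y ^ e.1.2.1 * m ^ e.1.2.2

/-- The classes of degree `n` are the combinations of the monomials of degree `n`. -/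
def Generates {X : FSch F} (x y m : W.H X) (n : ℕ) : Prop :=
  Submodule.span (ZMod 2) (Set.range (monomials x y m n)) = W.Hgr X n

/-- The monomials of degree `n` are linearly independent. -/
def Independent {X : FSch F} (x y m : W.H X) (n : ℕ) : Prop :=
  LinearIndependent (ZMod 2) (monomials x y m n)

end Theory

/-- The codimension of the eigenspace of `C` for the eigenvalue `c` in the algebraic closure
of `F`: the rank of `C - c`. -/
noncomputable def eigenCodim {F : Type} [Field F] {ι : Type} [Fintype ι] [DecidableEq ι]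
    (C : Matrix ι ι F) (c : AlgebraicClosure F) : ℕ :=
  (C.map (algebraMap F (AlgebraicClosure F)) - Matrix.scalar ι c).rank

/-- The commuting matrices `A`, `B` with `A² = a`, `B² = b` nonzero scalars define an action of
`G = (Z/2)²` on a projective space over `F`, and the fixed loci of the elements different from 1
have codimension larger than `d`. -/
structure IsProjectiveAction {F : Type} [Field F] {ι : Type} [Fintype ι] [DecidableEq ι]
    (A B : Matrix ι ι F) (a b : F) (d : ℕ) : Prop where
  a_ne : a ≠ 0
  b_ne : b ≠ 0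
  A_sq : A * A = Matrix.scalar ι a
  B_sq : B * B = Matrix.scalar ι b
  comm : A * B = B * A
  fixed : ∀ c : AlgebraicClosure F,
    d < eigenCodim A c ∧ d < eigenCodim B c ∧ d < eigenCodim (A * B) c

/-- `s A` is an involution, where `A² = a`. -/
def IsLift {F : Type} [Field F] (a : F) (s : AlgebraicClosure F) : Prop :=
  s ^ 2 * algebraMap F (AlgebraicClosure F) a = 1

namespace Theory

variable {F : Type} [Field F] (W : Theory.{w} F)

/-- The classes `x, y ∈ H¹(X̄)` and the line bundle `M s t` for a lift `(s A, t B)`.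

Two lifts which differ by a character of `G` give line bundles which differ by the line bundle of
the character (`left`, `right`), and the Frobenius acts through the coefficients of the lift
(`frob`). By the Lefschetz theorem and the projective bundle formula `Hⁿ(X̄)` is the part of
degree `n` of `H(BG × P^∞) = F₂[x, y, m]`, where `m` is the class of `M s t`, for `n < d`
(`span`), and contains it for `n = d` (`independent`). -/
structure IsLineBundleOfLift [Fintype F] (d : ℕ) (X : VarF F) (x y : W.H (SS.bar X.1))
    (M : AlgebraicClosure F → AlgebraicClosure F → W.CH X.bar) (s t : AlgebraicClosure F) :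
    Prop where
  mem : W.InCodim 1 (M s t)
  left : M (-s) t = M s t + W.kumC X.bar x
  right : M s (-t) = M s t + W.kumC X.bar y
  frob : W.phiC X (M s t) = M (s ^ Fintype.card F) (t ^ Fintype.card F)
  span : ∀ n < d, W.Generates x y (W.clH X.bar (M s t)) n
  independent : ∀ n ≤ d, W.Independent x y (W.clH X.bar (M s t)) n

/-- `X` is a `d`-dimensional Godeaux-Serre variety for the action of the group `G = (Z/2)²` on
a projective space over `F` given by two commuting matrices `A`, `B` with `A² = a`, `B² = b`.

`X = Y/G`, where `Y` is a complete intersection in the projective space on which `G` acts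
freely. The classes `x, y ∈ H¹(X̄)` are those of the torsor `Y → X` and of the two characters of
`G`; they are defined over `F`. The lifts of the projective representation to a linear
representation over `F̄` are `(s A, t B)` with `s² a = t² b = 1`, and `M s t` is the line bundle
on `X̄` obtained from `O(1)` by descent along `Y → X` with this lift. -/
structure IsGodeauxSerre [Fintype F] (a b : F) (d : ℕ) (X : VarF F) (x y : W.H (SS.bar X.1))
    (M : AlgebraicClosure F → AlgebraicClosure F → W.CH X.bar) : Prop where
  dim : HasDim X.1 d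
  x_mem : W.InDeg 1 x
  y_mem : W.InDeg 1 y
  frob_x : W.phiH X.1 x = x
  frob_y : W.phiH X.1 y = y
  lifts : ∀ s t, IsLift a s → IsLift b t → W.IsLineBundleOfLift d X x y M s t

/-- Godeaux-Serre varieties exist (Serre, Atiyah-Hirzebruch, Gabber, Poonen): if two commuting
matrices `A`, `B` over `F` define an action of `(Z/2)²` on a projective space such that the fixed
loci have codimension larger than `d`, then there is a `d`-dimensional Godeaux-Serre variety for
this action. -/
def GodeauxSerre [Fintype F] : Prop :=
  (2 : F) ≠ 0 → ∀ (ι : Type) [Fintype ι] [DecidableEq ι] (A B : Matrix ι ι F) (a b : F) (d : ℕ),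
    0 < d → IsProjectiveAction A B a b d →
    ∃ X : VarF F, IsNice X.1 ∧ ∃ x y M, W.IsGodeauxSerre a b d X x y M

/-- The published theorems on Chow rings and on etale cohomology with coefficients `Z/2` which
are used. -/
structure PublishedTheorems [Fintype F] : Prop where
  chow : W.IsChow
  coh : W.IsCoh
  cycleMap : W.IsCycleMap
  steenrod : W.IsSteenrod
  hochschildSerre : W.IsHochschildSerre
  kunneth : W.Kunneth
  curveCohomology : W.IsCurveCohomology
  kummer : W.IsKummer
  curvesSuffice : W.CurvesSuffice
  godeauxSerre : W.GodeauxSerre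

end Theory

end Pool.Agent.helper29.SS
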